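import Pool.Agent.H3.LU.Rw
import Pool.Agent.H99.LU.CStmts

/-!
Project LU, block RW: the interface `RA` determines the right-angled Coxeter group; consequences.
-/

set_option autoImplicit false
set_option linter.unusedVariables false
set_option linter.unusedSectionVars false

open scoped BigOperators Topology
open Filter

noncomputable section

namespace Pool.LU

theorem RA.irr {V : Type} [DecidableEq V] {adj : V → V → Prop} {W : Type} [Group W]
    (R : RA V adj W) (v : V) : ¬ adj v v := by
  intro h
  have h1 := R.desc_s 1 v v h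
  rw [mul_assoc, R.s_sq, one_mul, one_mul, (R.len_one 1).2 rfl] at h1
  have h2 : R.len (R.s v) ≠ 0 := by
    intro h0
    have h3 := R.len_s 1 v
    rw [one_mul, h0, (R.len_one 1).2 rfl] at h3
    omega
  exact absurd (h1.1 (Nat.pos_of_ne_zero h2)) (Nat.not_lt_zero _)

section

variable {V : Type} [Fintype V] [DecidableEq V] {adj : V → V → Prop} {W : Type} [Group W]

theorem RA.exists_hom (hs : ∀ u v, adj u v → adj v u) (R : RA V adj W) :
    ∃ φ : RG adj →* W, ∀ v, φ (rs adj v) = R.s v := by
  refine exists_lift adj R.s R.s_sq fun u v _ h => ?_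
  rcases h with h | h
  · exact R.s_comm u v h
  · exact (R.s_comm v u h).symm

theorem len_rs (x : RG adj) (v : V) :
    (rcs adj).length (x * rs adj v) = (rcs adj).length x + 1 ∨
    (rcs adj).length (x * rs adj v) + 1 = (rcs adj).length x := (rcs adj).length_mul_simple x v

theorem RA.len_hom (hs : ∀ u v, adj u v → adj v u) (R : RA V adj W) (φ : RG adj →* W)
    (hφ : ∀ v, φ (rs adj v) = R.s v) : ∀ (n : ℕ) (x : RG adj), (rcs adj).length x = n →
    R.len (φ x) = n := by
  intro n
  induction n using Nat.strong_induction_on with
  | _ n ih =>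
    intro x hx
    rcases Nat.eq_zero_or_pos n with h0 | h0
    · subst h0
      rw [(rcs adj).length_eq_zero_iff.1 hx, map_one, (R.len_one 1).2 rfl]
    · have hx1 : x ≠ 1 := by
        intro h
        rw [h, (rcs adj).length_one] at hx
        omega
      obtain ⟨v, hv⟩ := (rcs adj).exists_rightDescent_of_ne_one hx1
      have hv' : (rcs adj).length (x * rs adj v) < (rcs adj).length x := hv
      have hv1 : (rcs adj).length (x * rs adj v) + 1 = n := by
        rcases len_rs x v with h | h <;> omega
      set y := x * rs adj v with hy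
      have hxy : x = y * rs adj v := by rw [hy, mul_assoc, rs_sq, mul_one]
      have hyl := ih (n - 1) (by omega) y (by omega)
      rw [hxy, map_mul, hφ]
      rcases R.len_s (φ y) v with h | h
      · omega
      · exfalso
        -- `v` is a descent of `φ y`
        have hd : R.len (φ y * R.s v) < R.len (φ y) := by omega
        have hy1 : y ≠ 1 := by
          intro hy1
          rw [hy1, map_one, (R.len_one 1).2 rfl] at hd
          exact absurd hd (Nat.not_lt_zero _)
        obtain ⟨u, hu⟩ := (rcs adj).exists_rightDescent_of_ne_one hy1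
        have hu' : (rcs adj).length (y * rs adj u) < (rcs adj).length y := hu
        have hu1 : (rcs adj).length (y * rs adj u) + 1 = (rcs adj).length y := by
          rcases len_rs y u with h | h <;> omega
        have hyp : 0 < (rcs adj).length y := by omega
        set z := y * rs adj u with hz
        have hyz : y = z * rs adj u := by rw [hz, mul_assoc, rs_sq, mul_one]
        have hzl := ih (n - 2) (by omega) z (by omega)
        have hφz : φ z = φ y * R.s u := by rw [hz, map_mul, hφ]
        have hdu : R.len (φ y * R.s u) < R.len (φ y) := by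
          rw [← hφz, hzl, hyl]
          omega
        by_cases huv : u = v
        · subst huv
          have : x = z := by rw [hxy, hz]
          rw [← this] at hu1
          omega
        · have ha : adj u v := R.desc _ u v hdu hd huv
          have h3 := (R.desc_s (φ y) v u (hs u v ha)).2 hd
          rw [← hφz, ← hφ v, ← map_mul] at h3
          have hzv : (rcs adj).length (z * rs adj v) + 1 = (rcs adj).length z := by
            rcases len_rs z v with h4 | h4
            · exfalso
              have h5 : (rcs adj).length (z * rs adj v) = n - 1 := by omega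
              have h6 := ih (n - 1) (by omega) _ h5
              rw [h6, hzl] at h3
              omega
            · exact h4
          have hx2 : x = z * rs adj v * rs adj u := by
            calc x = y * rs adj v := hxy
              _ = z * rs adj u * rs adj v := by rw [← hyz]
              _ = z * rs adj v * rs adj u := by
                rw [mul_assoc z, rs_comm adj huv ha, ← mul_assoc z]
          have h7 := len_rs (z * rs adj v) u
          rw [← hx2] at h7
          omega

/-- `W` is the right-angled Coxeter group -/
theorem RA.exists_equiv (hs : ∀ u v, adj u v → adj v u) (R : RA V adj W) :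
    ∃ e : RG adj ≃* W, (∀ v, e (rs adj v) = R.s v) ∧ (∀ x, R.len (e x) = (rcs adj).length x) ∧
      ∀ x, R.χ (e x) = rchi adj x := by
  obtain ⟨φ, hφ⟩ := R.exists_hom hs
  have hl : ∀ x, R.len (φ x) = (rcs adj).length x := fun x => R.len_hom hs φ hφ _ x rfl
  have hinj : Function.Injective φ := by
    rw [injective_iff_map_eq_one]
    intro x hx
    have h1 := hl x
    rw [hx, (R.len_one 1).2 rfl] at h1
    exact (rcs adj).length_eq_zero_iff.1 h1.symm
  have hsurj : Function.Surjective φ := by
    rw [← MonoidHom.range_eq_top, eq_top_iff, ← R.gen, Subgroup.closure_le]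
    rintro _ ⟨v, rfl⟩
    exact ⟨rs adj v, hφ v⟩
  refine ⟨MulEquiv.ofBijective φ ⟨hinj, hsurj⟩, hφ, hl, fun x => ?_⟩
  have h1 : R.χ.comp φ = rchi adj := by
    refine (rcs adj).ext_simple fun v => ?_
    rw [MonoidHom.comp_apply]
    exact (congrArg R.χ (hφ v)).trans ((R.χ_s v).trans (rchi_rs adj v).symm)
  exact DFunLike.congr_fun h1 x

end

theorem rax : RAXStmt := by
  intro V _ _ adj hs hi
  exact ⟨RG adj, inferInstance, ⟨raCox adj hs hi⟩⟩

theorem uni : UNIStmt := by
  intro V _ _ adj hs W _ R G _ t h1 h2
  obtain ⟨e, he, -, -⟩ := R.exists_equiv hs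
  obtain ⟨f, hf⟩ := exists_lift adj t h1 (fun u v _ h => h.elim (h2 u v) fun h => (h2 v u h).symm)
  refine ⟨f.comp e.symm.toMonoidHom, fun v => ?_⟩
  have h3 : e.symm (R.s v) = rs adj v := by rw [← he, MulEquiv.symm_apply_apply]
  exact (congrArg f h3).trans (hf v)

theorem rsd : RSDStmt := by
  intro V _ _ adj hs W _ R
  obtain ⟨e, he, hl, hχ⟩ := R.exists_equiv hs
  refine ⟨{
    N := fun i => ((rchain adj).N i).map e.toMonoidHom
    normal := fun i => ((rchain adj).normal i).map _ e.surjective
    fin := fun i => ⟨?_⟩
    anti := fun i j hij => Subgroup.map_mono ((rchain adj).anti hij)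
    inf := ?_
    le := fun i => ?_ }⟩
  · rw [Subgroup.index_map_of_bijective e.bijective]
    exact ((rchain adj).fin i).index_ne_zero
  · rw [← Subgroup.map_iInf _ e.injective, (rchain adj).inf, Subgroup.map_bot]
  · rintro _ ⟨x, hx, rfl⟩
    have h1 := rchain_le adj i hx
    rw [MonoidHom.mem_ker] at h1 ⊢
    exact (hχ x).trans h1

theorem inf : INFStmt := by
  intro V _ _ adj hs W _ R u v huv ha
  obtain ⟨e, he, hl, hχ⟩ := R.exists_equiv hs
  haveI := rinf adj u v huv (fun h => h.elim ha fun h => ha (hs v u h))
  refine Infinite.of_injective (fun x : (rchi adj).ker => (⟨e x.1, by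
    rw [MonoidHom.mem_ker, hχ]; exact x.2⟩ : R.χ.ker)) ?_
  intro x y h
  exact Subtype.ext (e.injective (congrArg Subtype.val h))

theorem RA.range_top {V : Type} [Finite V] [DecidableEq V] {adj : V → V → Prop} {W : Type}
    [Group W] (R : RA V adj W) : R.χ.range = ⊤ := by
  classical
  haveI := Fintype.ofFinite V
  rw [eq_top_iff]
  intro f _
  have h1 : ∏ v : V, Pi.mulSingle v (f v) = f := Finset.univ_prod_mulSingle f
  rw [← h1]
  refine Subgroup.prod_mem _ fun v _ => ?_
  rcases Int.units_eq_one_or (f v) with h | h
  · rw [h, Pi.mulSingle_one]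
    exact one_mem _
  · rw [h]
    exact ⟨R.s v, R.χ_s v⟩

theorem RA.index_ker {V : Type} [Fintype V] [DecidableEq V] {adj : V → V → Prop} {W : Type}
    [Group W] (R : RA V adj W) : R.χ.ker.index = 2 ^ Fintype.card V := by
  rw [Subgroup.index_ker, R.range_top, Nat.card_congr (Subgroup.topEquiv).toEquiv,
    Nat.card_eq_fintype_card, Fintype.card_fun, Fintype.card_units_int]

theorem card_cosX {V : Type} [DecidableEq V] {adj : V → V → Prop} {W : Type} [Group W]
    (R : RA V adj W) (N : Subgroup W) (h1 : N ≤ R.χ.ker) (h2 : N.FiniteIndex) :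
    Fintype.card (cosX R N h1 h2).X = N.index := by
  rw [← Nat.card_eq_fintype_card]
  exact Nat.card_congr (QuotientGroup.quotientRightRelEquivQuotientLeftRel N)

theorem idx : IDXStmt := by
  intro V _ _ adj hs W _ R
  have hfin : R.χ.ker.FiniteIndex := ⟨by rw [R.index_ker]; positivity⟩
  refine ⟨hfin, fun N hN => ⟨⟨?_⟩, ?_⟩, fun N h1 h2 => ⟨card_cosX R N h1 h2, ?_⟩⟩
  · rw [Subgroup.index_map_subtype]
    exact mul_ne_zero hN.index_ne_zero hfin.index_ne_zero
  · rintro _ ⟨x, _, rfl⟩
    exact x.2
  · rw [← R.index_ker, mul_comm]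
    exact (Subgroup.relIndex_mul_index h1).symm

end Pool.LU
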