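import Pool.Agent.H3.LU.BStmts

/-!
Project LU, part B1: assembly.
-/

set_option autoImplicit false
set_option linter.unusedVariables false

open scoped BigOperators Manifold ContDiff Topology
open Pool.H3.L2

noncomputable section

namespace Pool.LU

theorem partB1 (mfd : MFDStmt) (hau : HAUStmt) (sct : SCTStmt) (con : CONStmt) (fre : FREStmt)
    (prp : PRPStmt) (coc : COCStmt) : PartB1 := by
  intro n V _ _ P W _ R hP
  obtain ⟨cs, hm, hs⟩ := mfd n V P W R hP
  refine ⟨{ V := Fin n → ℝ
            finrank_V := by simp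
            E := ESp R
            charted := cs
            mfd := hm
            t2 := hau n V P W R hP
            sc := sct n V P W R hP
            contr := con n V P W R hP
            Γ := R.χ.ker
            act := inferInstance
            smooth := fun g => hs g.1
            free := fun g x hx => Subtype.ext (fre n V P W R hP g.1 x g.2 hx)
            proper := ?_
            cocompact := ?_ }, fun Q hQ => hQ⟩
  · intro K L hK hL
    refine Set.Finite.of_finite_image ((prp n V P W R hP K L hK hL).subset ?_)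
      (Set.injOn_of_injective Subtype.val_injective)
    rintro _ ⟨g, hg, rfl⟩
    exact hg
  · obtain ⟨K, hK, h⟩ := coc n V P W R hP
    refine ⟨K, hK, fun x => ?_⟩
    obtain ⟨g, hg, hx⟩ := h x
    exact ⟨⟨g, hg⟩, hx⟩

theorem conB1 (cn0 : CN0Stmt) (cn1 : CN1Stmt) (cn2 : CN2Stmt) (exh : EXHStmt) : CONStmt := by
  intro n V _ _ P W _ R hP
  choose H h1 h2 h3 h4 h5 using cn1 n V P W R hP
  obtain ⟨H0, o, g1, g2, g3⟩ := cn0 n V P W R hP
  refine cn2 (ESp R) (Bl R) ?_ (exh n V P W R hP) H h1 h2 h3 h4 h5 H0 o g1 g2 g3
  rintro k p ⟨w, x, hw, rfl⟩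
  exact ⟨w, x, by omega, rfl⟩

end Pool.LU
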