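import Pool.Agent.H3.L2.Defs

/-!
Project LU, part B1: definitions. Right-angled Coxeter groups (interface), simple polytopes,
the manifold `E = W × P / ~`.
-/

set_option autoImplicit false

open scoped BigOperators Manifold ContDiff Topology
open Pool.H3.L2

noncomputable section

namespace Pool.LU

/-- What is used about the right-angled Coxeter group `W` of the graph `adj` on the vertex set
`V`: generators `s v`, the length function `len`, the homomorphism `χ` to `{1, -1}^V`. -/
structure RA (V : Type) [DecidableEq V] (adj : V → V → Prop) (W : Type) [Group W] where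
  s : V → W
  len : W → ℕ
  χ : W →* (V → ℤˣ)
  χ_s : ∀ v, χ (s v) = Pi.mulSingle v (-1)
  s_sq : ∀ v, s v * s v = 1
  s_comm : ∀ u v, adj u v → s u * s v = s v * s u
  gen : Subgroup.closure (Set.range s) = ⊤
  len_one : ∀ w, len w = 0 ↔ w = 1
  ne : ∀ w, w ≠ 1 → ∃ v, len (w * s v) < len w
  len_s : ∀ w v, len (w * s v) = len w + 1 ∨ len (w * s v) + 1 = len w
  /-- descents are adjacent -/
  desc : ∀ w u v, len (w * s u) < len w → len (w * s v) < len w → u ≠ v → adj u v
  /-- adjacent generators do not change the descents -/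
  desc_s : ∀ w u v, adj u v → (len (w * s v * s u) < len (w * s v) ↔ len (w * s u) < len w)

/-- A system of affine forms `l v` on `ℝ^n`; the polytope is `{x | ∀ v, 0 ≤ l v x}`. -/
structure SPoly (n : ℕ) (V : Type) where
  a : V → (Fin n → ℝ) →ₗ[ℝ] ℝ
  b : V → ℝ

namespace SPoly

variable {n : ℕ} {V : Type} (P : SPoly n V)

/-- the affine form number `v` -/
def l (v : V) (x : Fin n → ℝ) : ℝ := P.a v x + P.b v

/-- the polytope -/
def cham : Set (Fin n → ℝ) := {x | ∀ v, 0 ≤ P.l v x}

/-- the facets containing `x` -/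
def sig (x : Fin n → ℝ) : Set V := {v | P.l v x = 0}

/-- `σ` is a face of the nerve -/
def Face (σ : Set V) : Prop := ∃ x ∈ P.cham, σ ⊆ P.sig x

/-- two different facets meet -/
def adj (u v : V) : Prop := u ≠ v ∧ P.Face {u, v}

/-- `P` is a simple polytope whose nerve is a flag complex containing all elements of `V` as
vertices -/
structure Good : Prop where
  compact : IsCompact P.cham
  simple : ∀ x ∈ P.cham, LinearIndependent ℝ (fun v : P.sig x => P.a v)
  flag : ∀ σ : Set V, (∀ u ∈ σ, ∀ v ∈ σ, u ≠ v → P.adj u v) → P.Face σ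

end SPoly

/-! ### the manifold -/

section

variable {n : ℕ} {V : Type} [DecidableEq V] {P : SPoly n V} {W : Type} [Group W]

/-- the chamber -/
abbrev Pt (P : SPoly n V) : Type := {x : Fin n → ℝ // x ∈ P.cham}

/-- the subgroup of the facets containing `x` -/
def stab (R : RA V P.adj W) (x : Fin n → ℝ) : Subgroup W := Subgroup.closure (R.s '' P.sig x)

/-- the identification of the boundaries of the chambers -/
def glue (R : RA V P.adj W) : Setoid (W × Pt P) where
  r p q := p.2 = q.2 ∧ p.1⁻¹ * q.1 ∈ stab R p.2.1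
  iseqv := by
    refine ⟨fun p => ⟨rfl, by rw [inv_mul_cancel]; exact one_mem _⟩, ?_, ?_⟩
    · rintro p q ⟨h1, h2⟩
      refine ⟨h1.symm, ?_⟩
      rw [← h1]
      have := inv_mem h2
      rwa [mul_inv_rev, inv_inv] at this
    · rintro p q r ⟨h1, h2⟩ ⟨h3, h4⟩
      refine ⟨h1.trans h3, ?_⟩
      rw [← h1] at h4
      have := mul_mem h2 h4
      rwa [mul_assoc, mul_inv_cancel_left] at this

/-- the space `E = W × P / ~` -/
def ESp (R : RA V P.adj W) : Type := Quotient (glue R)

/-- the point `[w, x]` -/
def mk (R : RA V P.adj W) (w : W) (x : Pt P) : ESp R := Quotient.mk (glue R) (w, x)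

instance (R : RA V P.adj W) : TopologicalSpace (ESp R) :=
  ⨆ w : W, TopologicalSpace.coinduced (mk R w) inferInstance

/-- the action of `W` on `E` -/
instance (R : RA V P.adj W) : MulAction W (ESp R) where
  smul g := Quotient.map (fun p : W × Pt P => (g * p.1, p.2)) (by
    rintro p q ⟨h1, h2⟩
    refine ⟨h1, ?_⟩
    show (g * p.1)⁻¹ * (g * q.1) ∈ _
    rwa [mul_inv_rev, mul_assoc, inv_mul_cancel_left])
  one_smul := by
    rintro ⟨w, x⟩
    show Quotient.mk (glue R) (1 * w, x) = _
    rw [one_mul]
    rfl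
  mul_smul := by
    rintro g h ⟨w, x⟩
    show Quotient.mk (glue R) (g * h * w, x) = Quotient.mk (glue R) (g * (h * w), x)
    rw [mul_assoc]

theorem smul_mk (R : RA V P.adj W) (g w : W) (x : Pt P) : g • mk R w x = mk R (g * w) x := rfl

end

/-- the open star of the face of `y` in the chamber `a` -/
def star {n : ℕ} {V : Type} [DecidableEq V] {P : SPoly n V} {W : Type} [Group W]
    (R : RA V P.adj W) (a : W) (y : Fin n → ℝ) : Set (ESp R) :=
  {p | ∃ (g : W) (x : Pt P), g ∈ stab R y ∧ P.sig x.1 ⊆ P.sig y ∧ p = mk R (a * g) x}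

/-- `π` is the map `[w, x] ↦ (± √(l v x))_v` to `ℝ^V`, where the signs are given by `χ w` -/
def IsPi {n : ℕ} {V : Type} [DecidableEq V] {P : SPoly n V} {W : Type} [Group W]
    (R : RA V P.adj W) (π : ESp R → V → ℝ) : Prop :=
  ∀ w x v, π (mk R w x) v = ((R.χ w v : ℤ) : ℝ) * Real.sqrt (P.l v x.1)

/-- the union of the chambers of length at most `n` -/
def Bl {n : ℕ} {V : Type} [DecidableEq V] {P : SPoly n V} {W : Type} [Group W]
    (R : RA V P.adj W) (k : ℕ) : Set (ESp R) := {p | ∃ w x, R.len w ≤ k ∧ p = mk R w x}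

/-- A group `G` is the group of a closed aspherical manifold of dimension `n`: every property of
the group `G` holds for the group of some closed aspherical manifold. -/
def IsMfdGroup (n : ℕ) (G : Type) (iG : Group G) : Prop :=
  ∃ M : AsphericalMfd n, ∀ Q : (H : Type) → Group H → Prop, Q G iG → Q M.Γ M.grp

/-- Part B1. -/
def PartB1 : Prop := ∀ (n : ℕ) (V : Type) [Fintype V] [DecidableEq V] (P : SPoly n V) (W : Type)
  [Group W] (R : RA V P.adj W), P.Good → IsMfdGroup n R.χ.ker inferInstance

end Pool.LU
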