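import Pool.Agent.H3.LU.BAsm
import Pool.Agent.H22.LU.TOP
import Pool.Agent.H22.LU.RAF
import Pool.Agent.H43.LU.CLE
import Pool.Agent.H65.LU.CHT
import Pool.Agent.H65.LU.MFD
import Pool.Agent.H77.LU.POL
import Pool.Agent.H77.LU.PRP
import Pool.Agent.H83.LU.CN0
import Pool.Agent.H83.LU.COC
import Pool.Agent.H83.LU.EXH
import Pool.Agent.H83.LU.FRE
import Pool.Agent.H83.LU.HAU
import Pool.Agent.H83.LU.PRJ
import Pool.Agent.H83.LU.SCT
import Pool.Agent.H92.LU.CN1
import Pool.Agent.H92.LU.CN2

/-!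
Project LU, part B1: simple polytopes with flag nerve give closed aspherical manifolds.
-/

set_option autoImplicit false

namespace Pool.LU

theorem partB1_main : PartB1 :=
  have Htop := top pol
  have Hcle := cle Htop raf pol
  have Hprj := prj Htop raf
  have Hcht := cht raf pol Htop Hprj
  have Hmfd := mfd Hcht Hprj (pur pol) bas Htop
  partB1 Hmfd (hau Htop Hprj raf pol) (sct Hmfd Htop raf)
    (conB1 (cn0 Htop Hcle pol) (cn1 (ret bey pol) raf Htop Hcle pol) cn2 (exh Htop raf pol))
    (fre Htop raf pol) (prp Hcle) (coc Htop Hcle pol)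


end Pool.LU
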