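import Pool.Agent.H3.LU.BDefs

/-!
Project LU, part B1: statements of the modules.
-/

set_option autoImplicit false
set_option linter.unusedVariables false

open scoped BigOperators Manifold ContDiff Topology
open Pool.H3.L2

noncomputable section

namespace Pool.LU

/-! ### right-angled Coxeter groups -/

/-- facts about the subgroups `⟨s v, v ∈ σ⟩` of cliques `σ` -/
structure RaFacts {V : Type} [DecidableEq V] {adj : V → V → Prop} {W : Type} [Group W]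
    (R : RA V adj W) : Prop where
  inj : ∀ σ : Set V, (∀ u ∈ σ, ∀ v ∈ σ, u ≠ v → adj u v) →
    ∀ g ∈ Subgroup.closure (R.s '' σ), R.χ g = 1 → g = 1
  supp : ∀ (σ : Set V) (v : V), v ∉ σ → ∀ g ∈ Subgroup.closure (R.s '' σ), R.χ g v = 1
  ex : ∀ (σ : Set V) (ε : V → ℤˣ), (∀ v, v ∉ σ → ε v = 1) →
    ∃ g ∈ Subgroup.closure (R.s '' σ), R.χ g = ε
  fin : ∀ σ : Set V, (∀ u ∈ σ, ∀ v ∈ σ, u ≠ v → adj u v) →
    (Subgroup.closure (R.s '' σ) : Set W).Finite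
  len : ∀ σ : Set V, (∀ u ∈ σ, ∀ v ∈ σ, u ≠ v → adj u v) → ∀ w : W,
    (∀ v ∈ σ, R.len w < R.len (w * R.s v)) → ∀ g ∈ Subgroup.closure (R.s '' σ),
    R.len w ≤ R.len (w * g) ∧ (R.len (w * g) = R.len w → g = 1)
  up : ∀ σ : Set V, (∀ u ∈ σ, ∀ v ∈ σ, u ≠ v → adj u v) → ∃ N : ℕ,
    ∀ w : W, ∀ g ∈ Subgroup.closure (R.s '' σ), R.len (w * g) ≤ R.len w + N
  countable : Countable W

/-- RAF -/
def RAFStmt : Prop := ∀ (V : Type) [Fintype V] [DecidableEq V] (adj : V → V → Prop) (W : Type)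
  [Group W] (R : RA V adj W), RaFacts R

/-! ### the polytope -/

/-- elementary facts about the polytope -/
structure PolFacts {n : ℕ} {V : Type} (P : SPoly n V) : Prop where
  convex : Convex ℝ P.cham
  nonempty : P.cham.Nonempty
  /-- the facets containing a point form a clique -/
  clique : ∀ x ∈ P.cham, ∀ u ∈ P.sig x, ∀ v ∈ P.sig x, u ≠ v → P.adj u v
  /-- the set of the points of the chamber which are in no other facets than those in `σ` is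
  open in the chamber -/
  isOpen : ∀ σ : Set V, IsOpen {x : Pt P | P.sig x.1 ⊆ σ}
  isClosed : ∀ σ : Set V, IsClosed {x : Pt P | σ ⊆ P.sig x.1}

/-- POL -/
def POLStmt : Prop := ∀ (n : ℕ) (V : Type) [Fintype V] (P : SPoly n V), P.Good → PolFacts P

/-- BEY: a point beyond a face -/
def BEYStmt : Prop := ∀ (n : ℕ) (V : Type) [Fintype V] (P : SPoly n V), P.Good →
  ∀ σ : Set V, P.Face σ → ∃ z, (∀ v ∈ σ, P.l v z < 0) ∧ ∀ v, v ∉ σ → 0 < P.l v z

/-- RET: the chamber retracts to a union of facets which have a common point -/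
def RETStmt : Prop := ∀ (n : ℕ) (V : Type) [Fintype V] (P : SPoly n V), P.Good →
  ∀ σ : Set V, P.Face σ → σ.Nonempty → ∃ h : ℝ → (Fin n → ℝ) → (Fin n → ℝ),
    ContinuousOn (fun p : ℝ × (Fin n → ℝ) => h p.1 p.2) (Set.Icc 0 1 ×ˢ P.cham) ∧
    (∀ s ∈ Set.Icc (0 : ℝ) 1, ∀ x ∈ P.cham, h s x ∈ P.cham) ∧
    (∀ x ∈ P.cham, h 0 x = x) ∧
    (∀ x ∈ P.cham, ∃ v ∈ σ, P.l v (h 1 x) = 0) ∧
    ∀ s ∈ Set.Icc (0 : ℝ) 1, ∀ x ∈ P.cham, (∃ v ∈ σ, P.l v x = 0) → h s x = x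

/-- PUR: every point of the chamber is in the star of a vertex; `e` lists the facets at the
vertex -/
def PURStmt : Prop := ∀ (n : ℕ) (V : Type) [Fintype V] (P : SPoly n V), P.Good →
  ∀ x ∈ P.cham, ∃ y ∈ P.cham, P.sig x ⊆ P.sig y ∧ Nonempty (Fin n ≃ P.sig y)

/-- BAS: coordinates at a vertex -/
def BASStmt : Prop := ∀ (n : ℕ) (V : Type) [Fintype V] (P : SPoly n V), P.Good →
  ∀ y ∈ P.cham, ∀ e : Fin n ≃ P.sig y, ∃ B : (Fin n → ℝ) → (Fin n → ℝ), ContDiff ℝ ∞ B ∧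
    (∀ t i, P.l (e i) (B t) = t i) ∧ ∀ x, B (fun i => P.l (e i) x) = x

/-! ### the space `E` -/

section

variable {n : ℕ} {V : Type} [DecidableEq V] {P : SPoly n V} {W : Type} [Group W]

/-- facts about the topology of `E` -/
structure TopFacts (R : RA V P.adj W) : Prop where
  eq : ∀ w w' x x', mk R w x = mk R w' x' ↔ x = x' ∧ w⁻¹ * w' ∈ stab R x.1
  cont : ∀ w, Continuous (mk R w)
  dom : ∀ (Z : Type) [TopologicalSpace Z] (f : ESp R → Z), (∀ w, Continuous (f ∘ mk R w)) →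
    Continuous f
  smul : ∀ g : W, Continuous (fun p : ESp R => g • p)
  star_open : ∀ (a : W), ∀ y ∈ P.cham, IsOpen (star R a y)
  star_mem : ∀ (a : W) (x : Pt P), mk R a x ∈ star R a x.1
  star_sub : ∀ (a : W) (g : W) (y x : Fin n → ℝ), y ∈ P.cham → x ∈ P.cham → P.sig x ⊆ P.sig y →
    g ∈ stab R y → star R (a * g) x ⊆ star R a y
  star_cham : ∀ (a w : W) (y : Fin n → ℝ) (x : Pt P), y ∈ P.cham →
    (mk R w x ∈ star R a y ↔ P.sig x.1 ⊆ P.sig y ∧ a⁻¹ * w ∈ stab R y)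

end

/-- TOP -/
def TOPStmt : Prop := ∀ (n : ℕ) (V : Type) [Fintype V] [DecidableEq V] (P : SPoly n V) (W : Type)
  [Group W] (R : RA V P.adj W), P.Good → TopFacts R

/-- CLE: the chambers are closed, and they form a locally finite family -/
def CLEStmt : Prop := ∀ (n : ℕ) (V : Type) [Fintype V] [DecidableEq V] (P : SPoly n V) (W : Type)
  [Group W] (R : RA V P.adj W), P.Good → (∀ w, Topology.IsClosedEmbedding (mk R w)) ∧
    LocallyFinite (fun w => Set.range (mk R w))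

/-- PRJ: the map to `ℝ^V` -/
def PRJStmt : Prop := ∀ (n : ℕ) (V : Type) [Fintype V] [DecidableEq V] (P : SPoly n V) (W : Type)
  [Group W] (R : RA V P.adj W), P.Good → ∃ π : ESp R → V → ℝ, IsPi R π ∧ Continuous π ∧
    ∀ (g : W) (p : ESp R) (v : V), π (g • p) v = ((R.χ g v : ℤ) : ℝ) * π p v

/-- HAU -/
def HAUStmt : Prop := ∀ (n : ℕ) (V : Type) [Fintype V] [DecidableEq V] (P : SPoly n V) (W : Type)
  [Group W] (R : RA V P.adj W), P.Good → T2Space (ESp R)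

/-- CHT: the charts. The chart at the vertex `y` of the chamber `a` is given by the coordinates
of `π` with numbers in `sig y`. -/
def CHTStmt : Prop := ∀ (n : ℕ) (V : Type) [Fintype V] [DecidableEq V] (P : SPoly n V) (W : Type)
  [Group W] (R : RA V P.adj W), P.Good → ∀ π : ESp R → V → ℝ, IsPi R π →
  ∀ (a : W), ∀ y ∈ P.cham, ∀ (e : Fin n ≃ P.sig y) (B : (Fin n → ℝ) → (Fin n → ℝ)),
  ContDiff ℝ ∞ B → (∀ t i, P.l (e i) (B t) = t i) → (∀ x, B (fun i => P.l (e i) x) = x) →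
  ∃ φ : OpenPartialHomeomorph (ESp R) (Fin n → ℝ), φ.source = star R a y ∧
    φ.target = {t | ∀ v, v ∉ P.sig y → 0 < P.l v (B (fun i => t i ^ 2))} ∧
    (∀ p ∈ star R a y, ∀ i, φ p i = π p (e i)) ∧
    ∀ t ∈ φ.target, ∀ v, v ∉ P.sig y → π (φ.symm t) v =
      ((R.χ a v : ℤ) : ℝ) * Real.sqrt (P.l v (B (fun i => t i ^ 2)))

/-- MFD: the smooth structure. -/
def MFDStmt : Prop := ∀ (n : ℕ) (V : Type) [Fintype V] [DecidableEq V] (P : SPoly n V) (W : Type)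
  [Group W] (R : RA V P.adj W), P.Good → ∃ cs : ChartedSpace (Fin n → ℝ) (ESp R),
    IsManifold 𝓘(ℝ, Fin n → ℝ) ∞ (ESp R) ∧
    ∀ g : W, ContMDiff 𝓘(ℝ, Fin n → ℝ) 𝓘(ℝ, Fin n → ℝ) ∞ (fun p : ESp R => g • p)

/-- SCT -/
def SCTStmt : Prop := ∀ (n : ℕ) (V : Type) [Fintype V] [DecidableEq V] (P : SPoly n V) (W : Type)
  [Group W] (R : RA V P.adj W), P.Good → SecondCountableTopology (ESp R)

/-- FRE: the action of the kernel of `χ` is free -/
def FREStmt : Prop := ∀ (n : ℕ) (V : Type) [Fintype V] [DecidableEq V] (P : SPoly n V) (W : Type)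
  [Group W] (R : RA V P.adj W), P.Good → ∀ (g : W) (p : ESp R), R.χ g = 1 → g • p = p → g = 1

/-- PRP: the action is proper -/
def PRPStmt : Prop := ∀ (n : ℕ) (V : Type) [Fintype V] [DecidableEq V] (P : SPoly n V) (W : Type)
  [Group W] (R : RA V P.adj W), P.Good → ∀ K L : Set (ESp R), IsCompact K → IsCompact L →
    {g : W | ((fun x : ESp R => g • x) '' K ∩ L).Nonempty}.Finite

/-- COC: the action of the kernel of `χ` is cocompact -/
def COCStmt : Prop := ∀ (n : ℕ) (V : Type) [Fintype V] [DecidableEq V] (P : SPoly n V) (W : Type)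
  [Group W] (R : RA V P.adj W), P.Good → ∃ K : Set (ESp R), IsCompact K ∧
    ∀ p : ESp R, ∃ g : W, R.χ g = 1 ∧ g • p ∈ K

/-- CN1: one step of the contraction -/
def CN1Stmt : Prop := ∀ (n : ℕ) (V : Type) [Fintype V] [DecidableEq V] (P : SPoly n V) (W : Type)
  [Group W] (R : RA V P.adj W), P.Good → ∀ k : ℕ, ∃ H : ℝ → ESp R → ESp R,
    ContinuousOn (fun p : ℝ × ESp R => H p.1 p.2) (Set.Icc 0 1 ×ˢ Bl R (k + 1)) ∧
    (∀ s ∈ Set.Icc (0 : ℝ) 1, ∀ p ∈ Bl R (k + 1), H s p ∈ Bl R (k + 1)) ∧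
    (∀ p ∈ Bl R (k + 1), H 0 p = p) ∧ (∀ p ∈ Bl R (k + 1), H 1 p ∈ Bl R k) ∧
    ∀ s ∈ Set.Icc (0 : ℝ) 1, ∀ p ∈ Bl R k, H s p = p

/-- CN0: the first chamber is contractible -/
def CN0Stmt : Prop := ∀ (n : ℕ) (V : Type) [Fintype V] [DecidableEq V] (P : SPoly n V) (W : Type)
  [Group W] (R : RA V P.adj W), P.Good → ∃ (H : ℝ → ESp R → ESp R) (o : ESp R),
    ContinuousOn (fun p : ℝ × ESp R => H p.1 p.2) (Set.Icc 0 1 ×ˢ Bl R 0) ∧
    (∀ p ∈ Bl R 0, H 0 p = p) ∧ ∀ p ∈ Bl R 0, H 1 p = o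

/-- EXH: every point is in the interior of some `Bl R k` -/
def EXHStmt : Prop := ∀ (n : ℕ) (V : Type) [Fintype V] [DecidableEq V] (P : SPoly n V) (W : Type)
  [Group W] (R : RA V P.adj W), P.Good → ∀ p : ESp R, ∃ k, p ∈ interior (Bl R k)

/-- CN2: a space with an exhaustion by subspaces which retract to each other and such that the
first one is contractible is contractible -/
def CN2Stmt : Prop := ∀ (E : Type) [TopologicalSpace E] (B : ℕ → Set E),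
  (∀ k, B k ⊆ B (k + 1)) → (∀ p, ∃ k, p ∈ interior (B k)) → ∀ H : ℕ → ℝ → E → E,
  (∀ k, ContinuousOn (fun p : ℝ × E => H k p.1 p.2) (Set.Icc 0 1 ×ˢ B (k + 1))) →
  (∀ k, ∀ s ∈ Set.Icc (0 : ℝ) 1, ∀ p ∈ B (k + 1), H k s p ∈ B (k + 1)) →
  (∀ k, ∀ p ∈ B (k + 1), H k 0 p = p) → (∀ k, ∀ p ∈ B (k + 1), H k 1 p ∈ B k) →
  (∀ k, ∀ s ∈ Set.Icc (0 : ℝ) 1, ∀ p ∈ B k, H k s p = p) → ∀ (H0 : ℝ → E → E) (o : E),
  ContinuousOn (fun p : ℝ × E => H0 p.1 p.2) (Set.Icc 0 1 ×ˢ B 0) → (∀ p ∈ B 0, H0 0 p = p) →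
  (∀ p ∈ B 0, H0 1 p = o) → ContractibleSpace E

/-- CON -/
def CONStmt : Prop := ∀ (n : ℕ) (V : Type) [Fintype V] [DecidableEq V] (P : SPoly n V) (W : Type)
  [Group W] (R : RA V P.adj W), P.Good → ContractibleSpace (ESp R)

end Pool.LU
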