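import Pool.Agent.H3.LU.Top
import Pool.Agent.H3.LU.BDefs

/-!
Project LU: the mod `p` Singer conjecture (from Q1 and part Y) for decreasing chains of normal
subgroups of finite index with trivial intersection which need not be strictly decreasing.
-/

set_option autoImplicit false

open scoped BigOperators Topology
open MeasureTheory Filter Pool.H3.L2

noncomputable section

namespace Pool.LU

/-- Poincare duality for the Betti numbers of all finite regular covers. -/
def DualAll (K : Type) [Field K] {G : Type} [Group G] (C : BCx (GR G)) (n : ℕ) : Prop :=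
  ∀ (N : Subgroup G) [N.Normal] [N.FiniteIndex],
    (∀ a b, a + b = n → (C.cover N).betti K a = (C.cover N).betti K b) ∧
    ∀ a, n < a → (C.cover N).betti K a = 0

/-- A decreasing chain of normal subgroups of finite index with trivial intersection. -/
structure WChain (G : Type) [Group G] where
  N : ℕ → Subgroup G
  normal : ∀ i, (N i).Normal
  fin : ∀ i, (N i).FiniteIndex
  anti : Antitone N
  inf : ⨅ i, N i = ⊥

attribute [instance] WChain.normal WChain.fin

theorem WChain.exists_lt {G : Type} [Group G] [Infinite G] (c : WChain G) (i : ℕ) :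
    ∃ j, i < j ∧ ∀ k, j ≤ k → c.N k < c.N i := by
  by_contra h
  push Not at h
  have h1 : ∀ j, c.N i ≤ c.N j := by
    intro j
    obtain ⟨k, hk, hk'⟩ := h (max i j + 1) (by omega)
    have h2 : c.N k ≤ c.N i := c.anti (by omega)
    have h3 : c.N k = c.N i := by
      by_contra h4
      exact hk' (lt_of_le_of_ne h2 h4)
    rw [← h3]
    exact c.anti (by omega)
  have h2 : c.N i = ⊥ := by
    rw [eq_bot_iff, ← c.inf]
    exact le_iInf h1
  have h3 := (c.fin i).index_ne_zero
  rw [h2, Subgroup.index_bot] at h3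
  exact h3 (Nat.card_eq_zero_of_infinite)

/-- A chain property from the property for strict chains. -/
theorem WChain.tendsto {G : Type} [Group G] [Infinite G] (f : Subgroup G → ℝ)
    (h0 : ∀ N, 0 ≤ f N)
    (h : ∀ c : ResChain G, Tendsto (fun i => f (c.N i)) atTop (𝓝 0)) (c : WChain G) :
    Tendsto (fun i => f (c.N i)) atTop (𝓝 0) := by
  rw [Metric.tendsto_atTop']
  by_contra hcon
  push Not at hcon
  obtain ⟨ε, hε, hf⟩ := hcon
  -- good indices
  have hg : ∀ i, ∃ j, i < j ∧ c.N j < c.N i ∧ ε ≤ f (c.N j) := by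
    intro i
    obtain ⟨j, hj, hj'⟩ := c.exists_lt i
    obtain ⟨k, hk, hk'⟩ := hf j
    refine ⟨k, by omega, hj' k hk.le, ?_⟩
    rwa [Real.dist_eq, sub_zero, abs_of_nonneg (h0 _)] at hk'
  choose φ h1 h2 h3 using hg
  let ψ : ℕ → ℕ := fun k => Nat.rec (φ 0) (fun _ i => φ i) k
  have hψ : ∀ k, ψ (k + 1) = φ (ψ k) := fun k => rfl
  have hψ0 : ψ 0 = φ 0 := rfl
  have hge : ∀ k, k < ψ k := by
    intro k
    induction k with
    | zero => exact h1 0
    | succ k ih => rw [hψ]; have := h1 (ψ k); omega
  have hε' : ∀ k, ε ≤ f (c.N (ψ k)) := by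
    intro k
    cases k with
    | zero => exact h3 0
    | succ k => rw [hψ]; exact h3 _
  let N' : ℕ → Subgroup G := fun k => Nat.casesOn k ⊤ (fun k => c.N (ψ k))
  have hN0 : N' 0 = ⊤ := rfl
  have hN1 : ∀ k, N' (k + 1) = c.N (ψ k) := fun k => rfl
  have hanti : StrictAnti N' := by
    apply strictAnti_nat_of_succ_lt
    intro k
    cases k with
    | zero =>
      rw [hN1, hN0]
      exact lt_of_lt_of_le (h2 0) le_top
    | succ k =>
      have e1 : N' (k + 1 + 1) = c.N (φ (ψ k)) := rfl
      have e2 : N' (k + 1) = c.N (ψ k) := rfl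
      rw [e1, e2]
      exact h2 _
  let c' : ResChain G :=
    { N := N'
      normal := fun k => by
        cases k with
        | zero => exact (inferInstance : (⊤ : Subgroup G).Normal)
        | succ k => exact c.normal _
      fin := fun k => by
        cases k with
        | zero => exact (inferInstance : (⊤ : Subgroup G).FiniteIndex)
        | succ k => exact c.fin _
      zero := rfl
      anti := hanti
      inf := by
        rw [eq_bot_iff, ← c.inf]
        refine le_iInf fun i => ?_
        refine (iInf_le _ (i + 1)).trans ?_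
        rw [hN1]
        exact c.anti (hge i).le }
  have h4 := (Metric.tendsto_atTop'.1 (h c')) ε hε
  obtain ⟨n, hn⟩ := h4
  have h5 := hn (n + 1) (by omega)
  rw [Real.dist_eq, sub_zero, abs_of_nonneg (h0 _)] at h5
  have h6 : c'.N (n + 1) = c.N (ψ n) := rfl
  rw [h6] at h5
  exact absurd h5 (not_lt.mpr (hε' n))

/-- Q1 and part Y give the vanishing of the growth of mod `p` homology for all groups of closed
aspherical manifolds of odd dimension with Poincare duality. -/
theorem fpSinger_group (hQ : Q1) (Y : PartY) {m : ℕ} {G : Type} [iG : Group G] [Infinite G]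
    (hG : IsMfdGroup (2 * m + 1) G iG) (C : BCx (GR G)) (hC : C.IsRes)
    (hR : DualAll ℝ C (2 * m + 1)) (p : ℕ) [Fact p.Prime] (hp : DualAll (ZMod p) C (2 * m + 1))
    (c : WChain G) (j : ℕ) :
    Tendsto (fun i => ((C.cover (c.N i)).betti (ZMod p) j : ℝ) / ((c.N i).index : ℝ))
      atTop (𝓝 0) := by
  -- the statement for strict chains, as a property of groups
  obtain ⟨M, hM⟩ := hG
  have key : ∀ (C : BCx (GR G)) (_ : C.IsRes) (_ : DualAll ℝ C (2 * m + 1))
      (_ : DualAll (ZMod p) C (2 * m + 1)) (c : ResChain G),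
      Tendsto (fun i => ((C.cover (c.N i)).betti (ZMod p) j : ℝ) / ((c.N i).index : ℝ))
      atTop (𝓝 0) := by
    by_contra hcon
    have h1 := hM (fun H iH => ¬ (letI := iH; ∀ (C : BCx (GR H)) (_ : C.IsRes)
      (_ : DualAll ℝ C (2 * m + 1)) (_ : DualAll (ZMod p) C (2 * m + 1)) (c : ResChain H),
      Tendsto (fun i => ((C.cover (c.N i)).betti (ZMod p) j : ℝ) / ((c.N i).index : ℝ))
      atTop (𝓝 0))) hcon
    apply h1
    intro C hC h2 h3 c
    exact fpSinger hQ Y M C hC c ⟨fun i => (h2 (c.N i)).1, fun i => (h2 (c.N i)).2⟩ p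
      ⟨fun i => (h3 (c.N i)).1, fun i => (h3 (c.N i)).2⟩ j
  classical
  let f : Subgroup G → ℝ := fun N =>
    if h : N.Normal ∧ N.FiniteIndex then
      letI := h.1
      letI := h.2
      ((C.cover N).betti (ZMod p) j : ℝ) / (N.index : ℝ)
    else 0
  have hf : ∀ (N : Subgroup G) [h1 : N.Normal] [h2 : N.FiniteIndex],
      f N = ((C.cover N).betti (ZMod p) j : ℝ) / (N.index : ℝ) := by
    intro N h1 h2
    exact dif_pos ⟨h1, h2⟩
  have h0 : ∀ N, 0 ≤ f N := by
    intro N
    by_cases h : N.Normal ∧ N.FiniteIndex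
    · letI := h.1
      letI := h.2
      rw [hf]
      positivity
    · have : f N = 0 := dif_neg h
      rw [this]
  have h1 := WChain.tendsto f h0 (fun c => by
    refine (key C hC hR hp c).congr fun i => ?_
    rw [hf]) c
  refine h1.congr fun i => ?_
  rw [hf]

end Pool.LU
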