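import Pool.Agent.H3.LU.Uni

/-!
Project LU, block RW: special subgroups; invariant functions.
-/

set_option autoImplicit false
set_option linter.unusedVariables false
set_option linter.unusedSectionVars false

open scoped BigOperators Topology
open Filter

noncomputable section

namespace Pool.LU

section

variable {V : Type} [Fintype V] [DecidableEq V] {adj : V → V → Prop} {W : Type} [Group W]

/-- elements of a special subgroup do not change the other coordinates -/
theorem rz_special (B : Set V) (x : RG adj) (hx : x ∈ Subgroup.closure (rs adj '' B)) :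
    ∀ (y : V → ℤ) (v : V), v ∉ B → rz adj x y v = y v := by
  refine Subgroup.closure_induction (p := fun x _ => ∀ (y : V → ℤ) (v : V), v ∉ B →
    rz adj x y v = y v) ?_ ?_ ?_ ?_ hx
  · rintro _ ⟨b, hb, rfl⟩ y v hv
    rw [rz_rs, rfz_apply, if_neg (fun h => hv (by rw [h]; exact hb)), sub_zero]
  · intro y v hv
    rw [map_one, Module.End.one_apply]
  · intro a b _ _ ha hb y v hv
    rw [map_mul, Module.End.mul_apply, ha _ v hv, hb _ v hv]
  · intro a _ ha y v hv
    have h1 := ha (rz adj a⁻¹ y) v hv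
    rw [← Module.End.mul_apply, ← map_mul, mul_inv_cancel, map_one, Module.End.one_apply] at h1
    exact h1.symm

/-- the descents of elements of special subgroups -/
theorem RA.desc_special (hs : ∀ u v, adj u v → adj v u) (R : RA V adj W) (B : Set V) (w : W)
    (hw : w ∈ Subgroup.closure (R.s '' B)) (v : V) (hv : R.len (w * R.s v) < R.len w) :
    v ∈ B := by
  obtain ⟨e, he, hl, hχ⟩ := R.exists_equiv hs
  by_contra hvB
  have hw' : e.symm w ∈ Subgroup.closure (rs adj '' B) := by
    have h1 : Subgroup.closure (R.s '' B) =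
        (Subgroup.closure (rs adj '' B)).map e.toMonoidHom := by
      rw [MonoidHom.map_closure]
      congr 1
      ext x
      constructor
      · rintro ⟨b, hb, rfl⟩
        exact ⟨rs adj b, ⟨b, hb, rfl⟩, he b⟩
      · rintro ⟨_, ⟨b, hb, rfl⟩, rfl⟩
        exact ⟨b, hb, (he b).symm⟩
    rw [h1] at hw
    obtain ⟨x, hx, hxw⟩ := hw
    have h2 : e.symm w = x := by
      rw [← hxw]
      exact e.symm_apply_apply x
    rw [h2]
    exact hx
  have h1 : (rcs adj).length (e.symm w * rs adj v) < (rcs adj).length (e.symm w) := by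
    rw [← hl, ← hl, map_mul, e.apply_symm_apply, he]
    exact hv
  have h2 := negz adj _ v h1 v
  rw [rz_special B _ hw' _ v hvB, ez, Pi.single_eq_same] at h2
  exact absurd h2 (by norm_num)

end

theorem spc : SPCStmt := by
  intro V _ _ adj hs W _ R B
  refine ⟨{
    s := fun u => ⟨R.s u.1, Subgroup.subset_closure ⟨u.1, u.2, rfl⟩⟩
    len := fun w => R.len w.1
    χ := ⟨⟨fun w u => R.χ w.1 u.1, ?_⟩, ?_⟩
    χ_s := ?_
    s_sq := fun v => Subtype.ext (R.s_sq v.1)
    s_comm := fun u v h => Subtype.ext (R.s_comm u.1 v.1 h)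
    gen := ?_
    len_one := fun w => ?_
    ne := fun w hw => ?_
    len_s := fun w v => R.len_s w.1 v.1
    desc := fun w u v h1 h2 h3 => R.desc w.1 u.1 v.1 h1 h2 (fun h => h3 (Subtype.ext h))
    desc_s := fun w u v h => R.desc_s w.1 u.1 v.1 h }, fun u => rfl, fun w u => rfl⟩
  · funext u
    rw [OneMemClass.coe_one, map_one]
    rfl
  · intro a b
    funext u
    show R.χ (a.1 * b.1) u.1 = _
    rw [map_mul]
    rfl
  · intro v
    funext u
    show R.χ (R.s v.1) u.1 = _
    rw [R.χ_s]
    by_cases h : u = v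
    · subst h
      rw [Pi.mulSingle_eq_same, Pi.mulSingle_eq_same]
    · rw [Pi.mulSingle_eq_of_ne h, Pi.mulSingle_eq_of_ne (fun h' => h (Subtype.ext h'))]
  · rw [eq_top_iff]
    rintro ⟨w, hw⟩ _
    refine Subgroup.closure_induction (p := fun w hw =>
      (⟨w, hw⟩ : Subgroup.closure (R.s '' B)) ∈ Subgroup.closure (Set.range
        fun u : {u // u ∈ B} => (⟨R.s u.1, Subgroup.subset_closure ⟨u.1, u.2, rfl⟩⟩ :
          Subgroup.closure (R.s '' B)))) ?_ ?_ ?_ ?_ hw
    · rintro _ ⟨b, hb, rfl⟩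
      exact Subgroup.subset_closure ⟨⟨b, hb⟩, rfl⟩
    · exact one_mem _
    · intro a b ha hb h1 h2
      exact mul_mem h1 h2
    · intro a ha h1
      exact inv_mem h1
  · rw [R.len_one]
    exact ⟨fun h => Subtype.ext h, fun h => congrArg Subtype.val h⟩
  · obtain ⟨v, hv⟩ := R.ne w.1 (fun h => hw (Subtype.ext h))
    exact ⟨⟨v, R.desc_special hs B w.1 w.2 v hv⟩, hv⟩

/-- functions invariant under a permutation with long orbits -/
theorem finrank_inv_le {X : Type} [Fintype X] (F : Type) [Field F] (T : Equiv.Perm X) (K : ℕ)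
    (hT : ∀ k, 0 < k → k < K → ∀ x, (T ^ k) x ≠ x) (M : Submodule F (X → F))
    (hM : ∀ f ∈ M, ∀ x, f (T x) = f x) : K * Module.finrank F M ≤ Fintype.card X := by
  classical
  let D := Quotient (Equiv.Perm.SameCycle.setoid T)
  haveI : Fintype D := Fintype.ofFinite _
  -- the number of orbits
  have h1 : Fintype.card D * K ≤ Fintype.card X := by
    have hDK : Fintype.card D * K = Fintype.card (D × Fin K) := by
      rw [Fintype.card_prod, Fintype.card_fin]
    rw [hDK]
    refine Fintype.card_le_of_injective (fun p : D × Fin K => (T ^ (p.2 : ℕ)) p.1.out) ?_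
    rintro ⟨a, k⟩ ⟨b, l⟩ h
    have h' : (T ^ (k : ℕ)) a.out = (T ^ (l : ℕ)) b.out := h
    have hab : a = b := by
      rw [← a.out_eq, ← b.out_eq]
      refine Quotient.sound ?_
      show T.SameCycle a.out b.out
      have h2 : T.SameCycle ((T ^ (k : ℕ)) a.out) ((T ^ (l : ℕ)) b.out) := by
        rw [h']
      rwa [Equiv.Perm.sameCycle_pow_left, Equiv.Perm.sameCycle_pow_right] at h2
    subst hab
    have key : ∀ k l : Fin K, (k : ℕ) < l → (T ^ (k : ℕ)) a.out ≠ (T ^ (l : ℕ)) a.out := by
      intro k l hkl he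
      have h3 : (l : ℕ) = k + (l - k) := by omega
      rw [h3, pow_add, Equiv.Perm.mul_apply] at he
      exact hT (l - k) (by omega) (by omega) _ ((T ^ (k : ℕ)).injective he).symm
    have hkl : k = l := by
      rcases lt_trichotomy (k : ℕ) l with h3 | h3 | h3
      · exact absurd h' (key k l h3)
      · exact Fin.ext h3
      · exact absurd h'.symm (key l k h3)
    rw [hkl]
  -- invariance
  have hinv : ∀ f ∈ M, ∀ (k : ℤ) x, f ((T ^ k) x) = f x := by
    intro f hf k
    have hp : ∀ (k : ℕ) x, f ((T ^ k) x) = f x := by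
      intro k
      induction k with
      | zero => intro x; rw [pow_zero]; rfl
      | succ k ih => intro x; rw [pow_succ', Equiv.Perm.mul_apply, hM f hf, ih]
    intro x
    obtain ⟨n, rfl | rfl⟩ := k.eq_nat_or_neg
    · rw [zpow_natCast, hp]
    · have h2 := hp n ((T ^ (-(n : ℤ))) x)
      rw [← h2, zpow_neg, zpow_natCast, ← Equiv.Perm.mul_apply, mul_inv_cancel]
      rfl
  have h2 : Module.finrank F M ≤ Fintype.card D := by
    rw [← Module.finrank_fintype_fun_eq_card F (η := D)]
    let r : (X → F) →ₗ[F] (D → F) := LinearMap.funLeft F F (fun d : D => d.out)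
    refine LinearMap.finrank_le_finrank_of_injective (f := r.comp M.subtype) ?_
    rw [← LinearMap.ker_eq_bot, LinearMap.ker_eq_bot']
    rintro ⟨f, hf⟩ h0
    refine Subtype.ext (funext fun x => ?_)
    have h3 : f (Quotient.mk (Equiv.Perm.SameCycle.setoid T) x).out = 0 :=
      congrFun h0 (Quotient.mk (Equiv.Perm.SameCycle.setoid T) x)
    have h4 : T.SameCycle (Quotient.mk (Equiv.Perm.SameCycle.setoid T) x).out x :=
      Quotient.exact (s := Equiv.Perm.SameCycle.setoid T)
        (Quotient.out_eq (Quotient.mk (Equiv.Perm.SameCycle.setoid T) x))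
    obtain ⟨k, hk⟩ := h4
    show f x = 0
    rw [← hk, hinv f hf, h3]
  calc K * Module.finrank F M ≤ K * Fintype.card D := Nat.mul_le_mul_left _ h2
    _ = Fintype.card D * K := mul_comm _ _
    _ ≤ _ := h1

theorem fxs : FXSStmt := by
  intro V _ _ adj hs W _ R c F _ u v huv ha
  obtain ⟨e, he, hl, hχ⟩ := R.exists_equiv hs
  -- powers are not trivial
  have hne : ∀ k : ℕ, k ≠ 0 → (R.s v * R.s u) ^ k ≠ 1 := by
    intro k hk h
    refine dih_ne_one adj v u (Ne.symm huv) (fun h => h.elim (fun h => ha (hs v u h)) ha) k hk ?_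
    apply e.injective
    rw [map_pow, map_mul, he, he, h, map_one]
  have hev : ∀ K : ℕ, ∃ i0, ∀ i, i0 ≤ i → ∀ k, 0 < k → k < K → (R.s v * R.s u) ^ k ∉ c.N i := by
    intro K
    induction K with
    | zero => exact ⟨0, fun i _ k _ h => absurd h (Nat.not_lt_zero _)⟩
    | succ K ih =>
      obtain ⟨i0, h0⟩ := ih
      by_cases hK : K = 0
      · subst hK
        exact ⟨0, fun i _ k h1 h2 => by omega⟩
      · have h1 : ∃ i1, (R.s v * R.s u) ^ K ∉ c.N i1 := by
          by_contra hcon
          push Not at hcon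
          have h2 : (R.s v * R.s u) ^ K ∈ ⨅ i, c.N i := Subgroup.mem_iInf.2 hcon
          rw [c.inf, Subgroup.mem_bot] at h2
          exact hne K hK h2
        obtain ⟨i1, h1⟩ := h1
        refine ⟨max i0 i1, fun i hi k hk1 hk2 => ?_⟩
        rcases Nat.lt_succ_iff_lt_or_eq.1 hk2 with h | h
        · exact h0 i (le_trans (le_max_left _ _) hi) k hk1 h
        · rw [h]
          exact fun h3 => h1 (c.anti (le_trans (le_max_right _ _) hi) h3)
  have hb : ∀ K : ℕ, ∃ i0, ∀ i, i0 ≤ i → K * fx F (c.X i) u v ≤ (c.N i).index := by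
    intro K
    obtain ⟨i0, h0⟩ := hev K
    refine ⟨i0, fun i hi => ?_⟩
    have hc : Fintype.card (c.X i).X = (c.N i).index := card_cosX R _ _ _
    rw [← hc]
    let T : Equiv.Perm (c.X i).X :=
      { toFun := fun y => (c.X i).ρ u ((c.X i).ρ v y)
        invFun := fun y => (c.X i).ρ v ((c.X i).ρ u y)
        left_inv := fun y => by
          show (c.X i).ρ v ((c.X i).ρ u ((c.X i).ρ u ((c.X i).ρ v y))) = y
          rw [(c.X i).ρρ, (c.X i).ρρ]
        right_inv := fun y => by
          show (c.X i).ρ u ((c.X i).ρ v ((c.X i).ρ v ((c.X i).ρ u y))) = y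
          rw [(c.X i).ρρ, (c.X i).ρρ] }
    refine finrank_inv_le F T K ?_ (Fix F (c.X i) u v) (fun f hf x => hf x)
    intro k hk1 hk2
    have hT : ∀ (k : ℕ) (w : W), (T ^ k) (Quotient.mk _ w : (c.X i).X) =
        (Quotient.mk _ (w * (R.s v * R.s u) ^ k) : (c.X i).X) := by
      intro k
      induction k with
      | zero => intro w; rw [pow_zero, pow_zero, mul_one]; rfl
      | succ k ih =>
        intro w
        rw [pow_succ', Equiv.Perm.mul_apply, ih, pow_succ, ← mul_assoc w]
        show Quotient.mk _ (w * (R.s v * R.s u) ^ k * R.s v * R.s u) = _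
        rw [mul_assoc (w * (R.s v * R.s u) ^ k)]
    rintro ⟨w⟩ h1
    have h2 : (Quotient.mk _ (w * (R.s v * R.s u) ^ k) : (c.X i).X) = Quotient.mk _ w := by
      rw [← hT]
      exact h1
    have h3 := QuotientGroup.rightRel_apply.1 (Quotient.exact h2)
    refine h0 i hi k hk1 hk2 ?_
    have h4 : (w * (w * (R.s v * R.s u) ^ k)⁻¹)⁻¹ = w * (R.s v * R.s u) ^ k * w⁻¹ := by group
    have h5 := inv_mem h3
    rw [h4] at h5
    have h6 := (c.normal i).conj_mem _ h5 w⁻¹
    have h7 : w⁻¹ * (w * (R.s v * R.s u) ^ k * w⁻¹) * w⁻¹⁻¹ = (R.s v * R.s u) ^ k := by group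
    rwa [h7] at h6
  rw [Metric.tendsto_atTop]
  intro ε hε
  obtain ⟨K, hK⟩ := exists_nat_gt (1 / ε)
  obtain ⟨i0, h0⟩ := hb K
  refine ⟨i0, fun i hi => ?_⟩
  have h1 := h0 i hi
  have hidx : (0 : ℝ) < ((c.N i).index : ℝ) := by
    exact_mod_cast Nat.pos_of_ne_zero (c.fin i).index_ne_zero
  have hKpos : (0 : ℝ) < K := lt_trans (by positivity) hK
  have h2 : (K : ℝ) * (fx F (c.X i) u v : ℝ) ≤ ((c.N i).index : ℝ) := by exact_mod_cast h1
  rw [Real.dist_eq, sub_zero, abs_of_nonneg (by positivity), div_lt_iff₀ hidx]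
  have h3 : 1 < ε * K := by
    rw [div_lt_iff₀ hε] at hK
    linarith
  by_contra hcon
  push Not at hcon
  have h4 : ε * ((c.N i).index : ℝ) * K ≤ ((c.N i).index : ℝ) :=
    le_trans (by rw [mul_comm (K : ℝ)] at h2; nlinarith) h2
  nlinarith

end Pool.LU
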