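import Pool.Agent.H3.LU.TopR
import Pool.Agent.H3.LU.BMain
import Pool.Agent.H3.LU.Spc
import Pool.Agent.H99.LU.CFin
import Pool.Agent.H99.LU.REA
import Pool.Agent.H99.LU.LES
import Pool.Agent.H99.LU.SUS
import Pool.Agent.H84.LU.Oct
import Pool.Agent.H13.LU.PartAMain
import Pool.Agent.H22.LU.RAF
import Pool.Agent.H22.LU.DUA
import Pool.Agent.H88.LU.GEO
import Pool.Agent.H41.LU.SphLev
import Pool.Agent.H72.LU.CHB
import Pool.Agent.H49.LU.DEC
import Pool.Agent.H46.LU.DIM
import Pool.Agent.H46.LU.FCT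
import Pool.Agent.H82.LU.RE1
import Pool.Agent.H7.LU.RE2
import Pool.Agent.H7.LU.RE3
import Pool.Agent.H83.LU.SEQ

/-!
Project LU: Q1 is false, from part Y.
-/

set_option autoImplicit false

open scoped BigOperators Topology
open Filter Pool.H3.L2

noncomputable section

namespace Pool.LU

theorem sing_of (hQ : Q1) (Y : PartR) (p : ℕ) [Fact p.Prime] : Sing p :=
  fun _ _ _ _ hG C hC hR hp c j => fpSingerR_group hQ Y hG C hC hR p hp c j

/-- Q1 is false if part Y holds. -/
theorem not_q1_of (hY : Q1 → Nonempty PartR) : ¬ Q1 := by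
  intro hQ
  obtain ⟨Y⟩ := hY hQ
  obtain ⟨A⟩ := AMain.partA
  exact not_sing rax rsd oct sus' (seq chb les') fxs idx partB1_main
    (resRea raf chb (re1 chb raf) (re2 raf) (re3 raf)) (dua (sph geo exa eps)) inf dim fct spc dec
    A (sing_of hQ Y 3)

end Pool.LU
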