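import Pool.Agent.H3.LU.Chain

/-!
Project LU, top level: variant of part Y: a manifold with nonzero `L2`-torsion.
-/

set_option autoImplicit false

open scoped BigOperators Topology
open MeasureTheory Filter Pool.H3.L2 Pool.H29.L2

noncomputable section

namespace Pool.LU

/-- The `L2`-torsion is not zero, for all (i.e. for the) `L2`-acyclic spectral measures. -/
def RhoNe {G : Type} [Group G] (C : BCx (GR G)) : Prop :=
  ∀ μ : ℕ → Measure ℝ, (∀ j, C.IsSpectral j (μ j)) → (∀ j, μ j {0} = 0) → C.rho μ ≠ 0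

/-- Part Y, variant: a closed aspherical manifold of odd dimension `2k+1` with a residual chain
along which all real Betti numbers are `o(index)`, with nonzero `L2`-torsion. -/
structure PartR : Type 1 where
  k : ℕ
  Y : AsphericalMfd (2 * k + 1)
  C : BCx (GR Y.Γ)
  c : ResChain Y.Γ
  res : C.IsRes
  acyc : ∀ j, Tendsto (fun i => ((C.cover (c.N i)).betti ℝ j : ℝ) / ((c.N i).index : ℝ))
    atTop (𝓝 0)
  rho : RhoNe C

/-- part Y gives its variant, if Q1 holds -/
def PartY.toR (Y : PartY) (hQ : Q1) : PartR where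
  k := Y.k
  Y := Y.Y
  C := Y.C
  c := Y.c
  res := Y.res
  acyc := Y.acyc
  rho := fun _ h1 h2 => Y.rho_ne hQ ⟨h1, h2⟩

/-- Q1 and part Y give the mod `p` Singer conjecture in odd dimensions. -/
theorem fpSingerR (hQ : Q1) (Y : PartR) {m : ℕ} (X : AsphericalMfd (2 * m + 1))
    (C : BCx (GR X.Γ)) (hC : C.IsRes) (c : ResChain X.Γ) (hR : DualBetti ℝ C c (2 * m + 1))
    (p : ℕ) [Fact p.Prime] (hp : DualBetti (ZMod p) C c (2 * m + 1)) (j : ℕ) :
    Tendsto (fun i => ((C.cover (c.N i)).betti (ZMod p) j : ℝ) / ((c.N i).index : ℝ))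
      atTop (𝓝 0) := by
  choose μ hμ using fun l => exists_spectral Y.C Y.c l
  have hg : (⟨Y.C, Y.c, Y.res⟩ : Dat Y.Y).Good μ :=
    ⟨hμ, fun l => (luck (hμ l) (Y.acyc l)).1⟩
  have hρ := Y.rho μ hg.spec hg.zero
  have hQ' := Q1_iff.1 hQ
  have hZ : Q1At (X.prod (X.prod Y.Y rfl) rfl) (2 * m + 1 + Y.k) := by
    have h1 : ∀ (n : ℕ) (M : AsphericalMfd n), n = 2 * (2 * m + 1 + Y.k) + 1 →
        Q1At M (2 * m + 1 + Y.k) := by
      rintro n M rfl
      exact hQ' _ M
    exact h1 _ _ (by ring)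
  have hP : Q1At (X.pow (2 * m + 2)) ((2 * m + 3) * m + (m + 1)) := by
    have h1 : ∀ (n : ℕ) (M : AsphericalMfd n), n = 2 * ((2 * m + 3) * m + (m + 1)) + 1 →
        Q1At M ((2 * m + 3) * m + (m + 1)) := by
      rintro n M rfl
      exact hQ' _ M
    exact h1 _ _ (by ring)
  exact Dat.modp_growth' (⟨Y.C, Y.c, Y.res⟩ : Dat Y.Y) (hQ' _ _) hg hρ (⟨C, c, hC⟩ : Dat X) rfl rfl
    hZ hP hR p hp j

/-- Q1 and part Y give the vanishing of the growth of mod `p` homology for all groups of closed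
aspherical manifolds of odd dimension with Poincare duality. -/
theorem fpSingerR_group (hQ : Q1) (Y : PartR) {m : ℕ} {G : Type} [iG : Group G] [Infinite G]
    (hG : IsMfdGroup (2 * m + 1) G iG) (C : BCx (GR G)) (hC : C.IsRes)
    (hR : DualAll ℝ C (2 * m + 1)) (p : ℕ) [Fact p.Prime] (hp : DualAll (ZMod p) C (2 * m + 1))
    (c : WChain G) (j : ℕ) :
    Tendsto (fun i => ((C.cover (c.N i)).betti (ZMod p) j : ℝ) / ((c.N i).index : ℝ))
      atTop (𝓝 0) := by
  -- the statement for strict chains, as a property of groups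
  obtain ⟨M, hM⟩ := hG
  have key : ∀ (C : BCx (GR G)) (_ : C.IsRes) (_ : DualAll ℝ C (2 * m + 1))
      (_ : DualAll (ZMod p) C (2 * m + 1)) (c : ResChain G),
      Tendsto (fun i => ((C.cover (c.N i)).betti (ZMod p) j : ℝ) / ((c.N i).index : ℝ))
      atTop (𝓝 0) := by
    by_contra hcon
    have h1 := hM (fun H iH => ¬ (letI := iH; ∀ (C : BCx (GR H)) (_ : C.IsRes)
      (_ : DualAll ℝ C (2 * m + 1)) (_ : DualAll (ZMod p) C (2 * m + 1)) (c : ResChain H),
      Tendsto (fun i => ((C.cover (c.N i)).betti (ZMod p) j : ℝ) / ((c.N i).index : ℝ))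
      atTop (𝓝 0))) hcon
    apply h1
    intro C hC h2 h3 c
    exact fpSingerR hQ Y M C hC c ⟨fun i => (h2 (c.N i)).1, fun i => (h2 (c.N i)).2⟩ p
      ⟨fun i => (h3 (c.N i)).1, fun i => (h3 (c.N i)).2⟩ j
  classical
  let f : Subgroup G → ℝ := fun N =>
    if h : N.Normal ∧ N.FiniteIndex then
      letI := h.1
      letI := h.2
      ((C.cover N).betti (ZMod p) j : ℝ) / (N.index : ℝ)
    else 0
  have hf : ∀ (N : Subgroup G) [h1 : N.Normal] [h2 : N.FiniteIndex],
      f N = ((C.cover N).betti (ZMod p) j : ℝ) / (N.index : ℝ) := by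
    intro N h1 h2
    exact dif_pos ⟨h1, h2⟩
  have h0 : ∀ N, 0 ≤ f N := by
    intro N
    by_cases h : N.Normal ∧ N.FiniteIndex
    · letI := h.1
      letI := h.2
      rw [hf]
      positivity
    · have : f N = 0 := dif_neg h
      rw [this]
  have h1 := WChain.tendsto f h0 (fun c => by
    refine (key C hC hR hp c).congr fun i => ?_
    rw [hf]) c
  refine h1.congr fun i => ?_
  rw [hf]

/-- A strict subchain whose members (after the first) have a property which holds for infinitely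
many members of the given chain. -/
theorem WChain.exists_strict {G : Type} [Group G] [Infinite G] (c : WChain G)
    (P : Subgroup G → Prop) (hP : ∃ᶠ i in atTop, P (c.N i)) :
    ∃ (c' : ResChain G) (φ : ℕ → ℕ), StrictMono φ ∧ ∀ k, c'.N (k + 1) = c.N (φ k) ∧
      P (c.N (φ k)) := by
  -- good indices
  have hg : ∀ i, ∃ j, i < j ∧ c.N j < c.N i ∧ P (c.N j) := by
    intro i
    obtain ⟨j, hj, hj'⟩ := c.exists_lt i
    obtain ⟨k, hk, hk'⟩ := frequently_atTop.1 hP j
    exact ⟨k, by omega, hj' k hk, hk'⟩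
  choose φ h1 h2 h3 using hg
  let ψ : ℕ → ℕ := fun k => Nat.rec (φ 0) (fun _ i => φ i) k
  have hψ : ∀ k, ψ (k + 1) = φ (ψ k) := fun k => rfl
  have hψ0 : ψ 0 = φ 0 := rfl
  have hmono : StrictMono ψ := strictMono_nat_of_lt_succ fun k => by rw [hψ]; exact h1 _
  have hge : ∀ k, k ≤ ψ k := hmono.id_le
  have hε' : ∀ k, P (c.N (ψ k)) := by
    intro k
    cases k with
    | zero => exact h3 0
    | succ k => rw [hψ]; exact h3 _
  let N' : ℕ → Subgroup G := fun k => Nat.casesOn k ⊤ (fun k => c.N (ψ k))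
  have hN0 : N' 0 = ⊤ := rfl
  have hN1 : ∀ k, N' (k + 1) = c.N (ψ k) := fun k => rfl
  have hanti : StrictAnti N' := by
    apply strictAnti_nat_of_succ_lt
    intro k
    cases k with
    | zero =>
      rw [hN1, hN0]
      exact lt_of_lt_of_le (h2 0) le_top
    | succ k =>
      have e1 : N' (k + 1 + 1) = c.N (φ (ψ k)) := rfl
      have e2 : N' (k + 1) = c.N (ψ k) := rfl
      rw [e1, e2]
      exact h2 _
  let c' : ResChain G :=
    { N := N'
      normal := fun k => by
        cases k with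
        | zero => exact (inferInstance : (⊤ : Subgroup G).Normal)
        | succ k => exact c.normal _
      fin := fun k => by
        cases k with
        | zero => exact (inferInstance : (⊤ : Subgroup G).FiniteIndex)
        | succ k => exact c.fin _
      zero := rfl
      anti := hanti
      inf := by
        rw [eq_bot_iff, ← c.inf]
        refine le_iInf fun i => ?_
        refine (iInf_le _ (i + 1)).trans ?_
        rw [hN1]
        exact c.anti (hge i) }
  exact ⟨c', ψ, hmono, fun k => ⟨rfl, hε' k⟩⟩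

/-- The variant of part Y from the group of a manifold. -/
theorem exists_partR {k : ℕ} {G : Type} [iG : Group G] [Infinite G]
    (hG : IsMfdGroup (2 * k + 1) G iG) (C : BCx (GR G)) (hC : C.IsRes) (c : WChain G)
    (acyc : ∀ j, Tendsto (fun i => ((C.cover (c.N i)).betti ℝ j : ℝ) / ((c.N i).index : ℝ))
      atTop (𝓝 0)) (rho : RhoNe C) : Nonempty PartR := by
  obtain ⟨c', φ, hφ, h1⟩ := c.exists_strict (fun _ => True) (Eventually.frequently (by simp))
  have h2 : ∀ j, Tendsto (fun i => ((C.cover (c'.N i)).betti ℝ j : ℝ) / ((c'.N i).index : ℝ))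
      atTop (𝓝 0) := by
    intro j
    rw [← tendsto_add_atTop_iff_nat 1]
    refine ((acyc j).comp hφ.tendsto_atTop).congr fun i => ?_
    simp only [Function.comp_apply, (h1 i).1]
  obtain ⟨M, hM⟩ := hG
  obtain ⟨C, c, h3, h4, h5⟩ := hM (fun H iH => letI := iH; ∃ (C : BCx (GR H)) (c : ResChain H),
    C.IsRes ∧ (∀ j, Tendsto (fun i => ((C.cover (c.N i)).betti ℝ j : ℝ) / ((c.N i).index : ℝ))
      atTop (𝓝 0)) ∧ RhoNe C) ⟨C, c', hC, h2, rho⟩
  exact ⟨⟨k, M, C, c, h3, h4, h5⟩⟩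

/-- Part Y from the group of a manifold. -/
theorem exists_partY {k : ℕ} {G : Type} [iG : Group G] [Infinite G]
    (hG : IsMfdGroup (2 * k + 1) G iG) (C : BCx (GR G)) (hC : C.IsRes) (c : WChain G)
    (acyc : ∀ j, Tendsto (fun i => ((C.cover (c.N i)).betti ℝ j : ℝ) / ((c.N i).index : ℝ))
      atTop (𝓝 0)) (ε : ℝ) (hε : 0 < ε)
    (tors : ∃ᶠ i in atTop, ε * ((c.N i).index : ℝ) ≤ Real.log ((C.cover (c.N i)).torsOrd k)) :
    Nonempty PartY := by
  classical
  let P : Subgroup G → Prop := fun N => ∃ (h1 : N.Normal) (h2 : N.FiniteIndex),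
    ε * (N.index : ℝ) ≤ Real.log ((C.cover N).torsOrd k)
  obtain ⟨c', φ, hφ, h1⟩ := c.exists_strict P (tors.mono fun i hi => ⟨c.normal i, c.fin i, hi⟩)
  have h2 : ∀ j, Tendsto (fun i => ((C.cover (c'.N i)).betti ℝ j : ℝ) / ((c'.N i).index : ℝ))
      atTop (𝓝 0) := by
    intro j
    rw [← tendsto_add_atTop_iff_nat 1]
    refine ((acyc j).comp hφ.tendsto_atTop).congr fun i => ?_
    simp only [Function.comp_apply, (h1 i).1]
  have h3 : ∃ᶠ i in atTop, ε * ((c'.N i).index : ℝ) ≤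
      Real.log ((C.cover (c'.N i)).torsOrd k) := by
    rw [frequently_atTop]
    intro i
    refine ⟨i + 1, by omega, ?_⟩
    obtain ⟨_, _, h4⟩ := (h1 i).2
    simp only [(h1 i).1]
    exact h4
  obtain ⟨M, hM⟩ := hG
  obtain ⟨C, c, h3, h4, h5⟩ := hM (fun H iH => letI := iH; ∃ (C : BCx (GR H)) (c : ResChain H),
    C.IsRes ∧ (∀ j, Tendsto (fun i => ((C.cover (c.N i)).betti ℝ j : ℝ) / ((c.N i).index : ℝ))
      atTop (𝓝 0)) ∧ ∃ᶠ i in atTop, ε * ((c.N i).index : ℝ) ≤
        Real.log ((C.cover (c.N i)).torsOrd k)) ⟨C, c', hC, h2, h3⟩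
  exact ⟨⟨k, M, C, c, h3, h4, ε, hε, h5⟩⟩

end Pool.LU
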