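import Pool.Agent.H3.LU.Final
import Pool.Agent.H81.LU.YFin
import Pool.Agent.H84.LU.YMain
import Pool.Agent.H85.LU.CHN
import Pool.Agent.H85.LU.LVL
import Pool.Agent.H72.LU.YFil
import Pool.Agent.H83.LU.GEN
import Pool.Agent.H39.LU.TG
import Pool.Agent.H13.LU.MCY
import Pool.Agent.H22.LU.NST
import Pool.Agent.H99.LU.ReszY

/-!
Project LU: Q1 is false.
-/

set_option autoImplicit false

open scoped BigOperators Topology
open Filter Pool.H3.L2

noncomputable section

namespace Pool.LU

theorem partY : Nonempty PartY := by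
  obtain ⟨Y⟩ := YC.ycert
  exact partY_of_cert (lvl gen mcy fil tg hgt nst resz) chn Y

/-- Q1 is false. -/
theorem not_q1 : ¬ Q1 := by
  obtain ⟨Y⟩ := partY
  exact not_q1_of fun hQ => ⟨Y.toR hQ⟩

end Pool.LU
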