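import Pool.Agent.H3.LU.NotQ1
import Pool.Agent.H99.LU.OrFin

/-!
Project LU: Q1 is false for orientable manifolds.
-/

set_option autoImplicit false

open scoped BigOperators Topology
open MeasureTheory Filter Pool.H3.L2

noncomputable section

namespace Pool.LU

/-- Part Y from the certificate, with the orientation. -/
theorem partY_or_of_cert (lvl : LVLStmt) (chn : CHNStmt) (Y : YCert) :
    ∃ Z : PartY, Orient Z.Y := by
  classical
  obtain ⟨W, iW, ⟨R⟩⟩ := rax Y.V Y.P.adj Y.P.adj_symm Y.P.adj_irrefl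
  obtain ⟨-, d2, -⟩ := dim _ Y.V Y.P Y.good
  obtain ⟨u, v, huv, hadj⟩ := d2 (by omega)
  haveI : Infinite R.χ.ker := inf Y.V Y.P.adj Y.P.adj_symm W R u v huv hadj
  obtain ⟨C, hC, ε, hε, hK⟩ := lvl Y.V Y.P.adj Y.P.adj_symm Y.P.adj_irrefl W R Y.o Y.ho 5 Y.κ Y.s
    Y.proper Y.mix Y.surj Y.triv Y.fin Y.bad
  obtain ⟨c⟩ := exists_wchain Y.P.adj_symm R
  obtain ⟨c', h1, h2⟩ := chn R.χ.ker c C ε hε hK
  exact exists_partY_or (k := 2) (partB1_main 5 Y.V Y.P W R Y.good) C hC c' h1 ε hε h2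
    (hTop_ker Y.P Y.good R)

theorem partY_or : ∃ Z : PartY, Orient Z.Y := by
  obtain ⟨Y⟩ := YC.ycert
  exact partY_or_of_cert (lvl gen mcy fil tg hgt nst resz) chn Y

/-- Q1 is false for orientable manifolds. -/
theorem not_q1Or : ¬ Q1Or := by
  obtain ⟨Y, hY⟩ := partY_or
  exact not_q1Or_of_Y Y hY

/-- The literal negated form of Q1, for an orientable manifold. -/
theorem exists_counterexample : ∃ (k : ℕ) (M : AsphericalMfd (2 * k + 1)),
    (∃ C : BCx (GR M.Γ), C.IsRes ∧ (C.cover ⊤).betti ℝ (2 * k + 1) ≠ 0) ∧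
    ∃ (C : BCx (GR M.Γ)) (μ : ℕ → Measure ℝ) (c : ResChain M.Γ),
      C.IsRes ∧ (∀ j, C.IsSpectral j (μ j)) ∧ (∀ j, μ j {0} = 0) ∧
      (∀ j, IntegrableOn Real.log (Set.Ioi 0) (μ j)) ∧
      ¬ Tendsto (fun i => Real.log ((C.cover (c.N i)).torsOrd k) / ((c.N i).index : ℝ)) atTop
        (𝓝 ((-1) ^ k * C.rho μ)) := by
  by_contra hcon
  refine not_q1Or fun k M hM C hC μ h1 h2 c => ?_
  by_contra h3
  exact hcon ⟨k, M, hM, C, μ, c, hC, h1, h2, fun j => (Pool.H71.L2.luck_eq (h1 j) c).2, h3⟩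

end Pool.LU
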