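import Pool.Agent.H3.LU.Chain
import Pool.Agent.H45.CD.Geom
import Pool.Agent.H45.CD.Posr

/-!
Project LU, block RW: the right-angled Coxeter group of a graph.
-/

set_option autoImplicit false
set_option linter.unusedVariables false
set_option linter.unusedSectionVars false

open scoped BigOperators
open Pool.Agent.H52.CD

noncomputable section

namespace Pool.LU

open Classical in
/-- the Coxeter matrix of a graph -/
def cmat {V : Type} (adj : V → V → Prop) : CoxeterMatrix V where
  M := Matrix.of fun u v => if u = v then 1 else if adj u v ∨ adj v u then 2 else 0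
  isSymm := by
    ext u v
    simp only [Matrix.transpose_apply, Matrix.of_apply, eq_comm (a := v) (b := u),
      or_comm (a := adj v u) (b := adj u v)]
  diagonal := fun u => by simp
  off_diagonal := fun u v h => by
    simp only [Matrix.of_apply, if_neg h]
    split_ifs <;> norm_num

/-- the right-angled Coxeter group of a graph -/
abbrev RG {V : Type} (adj : V → V → Prop) : Type := (cmat adj).Group

/-- its Coxeter system -/
abbrev rcs {V : Type} (adj : V → V → Prop) : CoxeterSystem (cmat adj) (RG adj) :=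
  (cmat adj).toCoxeterSystem

/-- its generators -/
abbrev rs {V : Type} (adj : V → V → Prop) (v : V) : RG adj := (rcs adj).simple v

variable {V : Type}

theorem cmat_self (adj : V → V → Prop) (v : V) : cmat adj v v = 1 := (cmat adj).diagonal v

open Classical in
theorem cmat_or {adj : V → V → Prop} {u v : V} (h : u ≠ v) (ha : adj u v ∨ adj v u) :
    cmat adj u v = 2 := by
  change (if u = v then 1 else if adj u v ∨ adj v u then 2 else 0) = 2
  rw [if_neg h, if_pos ha]

theorem cmat_adj {adj : V → V → Prop} {u v : V} (h : u ≠ v) (ha : adj u v) : cmat adj u v = 2 :=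
  cmat_or h (Or.inl ha)

open Classical in
theorem cmat_nadj {adj : V → V → Prop} {u v : V} (h : u ≠ v) (ha : ¬ adj u v) (hb : ¬ adj v u) :
    cmat adj u v = 0 := by
  change (if u = v then 1 else if adj u v ∨ adj v u then 2 else 0) = 0
  rw [if_neg h, if_neg (by tauto)]

/-- homomorphisms from `RG adj` to groups -/
theorem exists_lift (adj : V → V → Prop) {G : Type} [Monoid G] (f : V → G)
    (h1 : ∀ v, f v * f v = 1) (h2 : ∀ u v, u ≠ v → adj u v ∨ adj v u → f u * f v = f v * f u) :
    ∃ φ : RG adj →* G, ∀ v, φ (rs adj v) = f v := by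
  have hf : (cmat adj).IsLiftable f := by
    intro u v
    by_cases huv : u = v
    · subst huv
      rw [cmat_self, pow_one, h1]
    · by_cases ha : adj u v ∨ adj v u
      · have h3 : cmat adj u v = 2 := cmat_or huv ha
        rw [h3, pow_two]
        calc f u * f v * (f u * f v) = f u * (f v * f u) * f v := by simp only [mul_assoc]
          _ = f u * (f u * f v) * f v := by rw [h2 u v huv ha]
          _ = f u * f u * (f v * f v) := by simp only [mul_assoc]
          _ = 1 := by rw [h1, h1, mul_one]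
      · have h3 : cmat adj u v = 0 := cmat_nadj huv (fun h => ha (Or.inl h)) (fun h => ha (Or.inr h))
        rw [h3, pow_zero]
  exact ⟨(rcs adj).lift ⟨f, hf⟩, fun v => (rcs adj).lift_apply_simple hf v⟩

theorem rs_sq (adj : V → V → Prop) (v : V) : rs adj v * rs adj v = 1 :=
  (rcs adj).simple_mul_simple_self v

theorem rs_comm (adj : V → V → Prop) {u v : V} (h : u ≠ v) (ha : adj u v) :
    rs adj u * rs adj v = rs adj v * rs adj u := by
  have h1 := (rcs adj).simple_mul_simple_pow u v
  rw [cmat_adj h ha, pow_two] at h1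
  have h2 : (rs adj u * rs adj v)⁻¹ = rs adj u * rs adj v := inv_eq_of_mul_eq_one_left h1
  rw [← h2, mul_inv_rev, (rcs adj).inv_simple, (rcs adj).inv_simple]

/-! ### the integral representation -/

section rep

variable [Fintype V] [DecidableEq V] (adj : V → V → Prop)

open Classical in
/-- twice the bilinear form -/
def bz (u v : V) : ℤ := if u = v then 2 else if adj u v ∨ adj v u then 0 else -2

theorem bz_self (v : V) : bz adj v v = 2 := if_pos rfl

theorem bz_adj {u v : V} (h : u ≠ v) (ha : adj u v ∨ adj v u) : bz adj u v = 0 := by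
  rw [bz, if_neg h, if_pos ha]

theorem bz_nadj {u v : V} (h : u ≠ v) (ha : ¬ (adj u v ∨ adj v u)) : bz adj u v = -2 := by
  rw [bz, if_neg h, if_neg ha]

theorem bz_symm (u v : V) : bz adj u v = bz adj v u := by
  by_cases h : u = v
  · rw [h]
  · by_cases ha : adj u v ∨ adj v u
    · rw [bz_adj adj h ha, bz_adj adj (Ne.symm h) ha.symm]
    · rw [bz_nadj adj h ha, bz_nadj adj (Ne.symm h) (fun h => ha h.symm)]

/-- the reflections -/
def rfz (v : V) : Module.End ℤ (V → ℤ) where
  toFun x := fun w => x w - if w = v then ∑ u, bz adj u v * x u else 0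
  map_add' x y := by
    ext w
    simp only [Pi.add_apply, mul_add, Finset.sum_add_distrib]
    split_ifs <;> ring
  map_smul' c x := by
    ext w
    simp only [Pi.smul_apply, smul_eq_mul, RingHom.id_apply]
    have : ∑ u, bz adj u v * (c * x u) = c * ∑ u, bz adj u v * x u := by
      rw [Finset.mul_sum]
      exact Finset.sum_congr rfl fun u _ => by ring
    rw [this]
    split_ifs <;> ring

theorem rfz_apply (v w : V) (x : V → ℤ) :
    rfz adj v x w = x w - if w = v then ∑ u, bz adj u v * x u else 0 := rfl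

theorem sum_bz_rfz (v u : V) (x : V → ℤ) : ∑ w, bz adj w u * rfz adj v x w =
    ∑ w, bz adj w u * x w - bz adj v u * ∑ w, bz adj w v * x w := by
  simp only [rfz_apply, mul_sub, Finset.sum_sub_distrib, mul_ite, mul_zero, Finset.sum_ite_eq',
    Finset.mem_univ, if_true]

theorem rfz_sq (v : V) : rfz adj v * rfz adj v = 1 := by
  refine LinearMap.ext fun x => funext fun w => ?_
  rw [Module.End.mul_apply, rfz_apply, sum_bz_rfz, rfz_apply, bz_self, Module.End.one_apply]
  split_ifs
  · ring
  · ring

theorem rfz_comm (u v : V) (h : u ≠ v) (ha : adj u v ∨ adj v u) :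
    rfz adj u * rfz adj v = rfz adj v * rfz adj u := by
  refine LinearMap.ext fun x => funext fun w => ?_
  rw [Module.End.mul_apply, Module.End.mul_apply, rfz_apply, sum_bz_rfz, rfz_apply, rfz_apply,
    sum_bz_rfz, rfz_apply, bz_adj adj (Ne.symm h) ha.symm, bz_adj adj h ha]
  simp only [zero_mul, sub_zero]
  ring

/-- the representation -/
def rz : RG adj →* Module.End ℤ (V → ℤ) :=
  (exists_lift adj (rfz adj) (rfz_sq adj) (rfz_comm adj)).choose

theorem rz_rs (v : V) : rz adj (rs adj v) = rfz adj v :=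
  (exists_lift adj (rfz adj) (rfz_sq adj) (rfz_comm adj)).choose_spec v

/-- real coordinates -/
def rc (x : V → ℤ) : V →₀ ℝ := Finsupp.equivFunOnFinite.symm fun v => (x v : ℝ)

theorem rc_apply (x : V → ℤ) (v : V) : rc x v = (x v : ℝ) := rfl

theorem bil_cmat (u v : V) : bil (cmat adj) u v = (bz adj u v : ℝ) := by
  unfold bil
  by_cases h : u = v
  · subst h
    rw [cmat_self, bz_self]
    simp
  · by_cases ha : adj u v ∨ adj v u
    · rw [cmat_or h ha, bz_adj adj h ha]
      simp
    · rw [cmat_nadj h (fun h => ha (Or.inl h)) (fun h => ha (Or.inr h)), bz_nadj adj h ha]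
      simp

theorem geo_rz (G : Geo (rcs adj)) (w : RG adj) : ∀ x : V → ℤ,
    G.ρ w (iv (rc x)) = iv (rc (rz adj w x)) := by
  refine (rcs adj).simple_induction_left (p := fun w => ∀ x : V → ℤ,
    G.ρ w (iv (rc x)) = iv (rc (rz adj w x))) w ?_ ?_
  · intro x
    rw [map_one, map_one]
    rfl
  · intro w v ih x
    rw [map_mul, map_mul, Module.End.mul_apply, Module.End.mul_apply, ih, G.simple, rz_rs]
    set y := rz adj w x with hy
    rw [geom_rf_al, co1_apply]
    refine Prod.ext ?_ ?_
    · refine Finsupp.ext fun u => ?_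
      have h1 : (iv (rc y)).1.sum (fun j a => a * bil (cmat adj) j v) =
          ∑ j, (y j : ℝ) * (bz adj j v : ℝ) := by
        rw [Finsupp.sum_fintype _ _ (by simp)]
        exact Finset.sum_congr rfl fun j _ => by rw [bil_cmat]; rfl
      have h2 : (iv (rc y)).2 v = 0 := rfl
      rw [h1, h2, add_zero]
      show (rc y) u - (∑ j, (y j : ℝ) * (bz adj j v : ℝ)) * (al v u) = ((rfz adj v y u : ℤ) : ℝ)
      rw [rfz_apply, al, Finsupp.single_apply, rc_apply]
      push_cast
      by_cases h : u = v
      · subst h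
        rw [if_pos rfl, if_pos rfl, mul_one]
        congr 1
        exact Finset.sum_congr rfl fun j _ => mul_comm _ _
      · rw [if_neg (Ne.symm h), if_neg h]
        simp
    · show (0 : V → ℝ) - _ • (0 : V → ℝ) = 0
      simp

/-- basis vectors -/
abbrev ez (v : V) : V → ℤ := Pi.single v 1

theorem rc_ez (v : V) : rc (ez v) = al v := by
  refine Finsupp.ext fun u => ?_
  rw [rc_apply, al, Finsupp.single_apply, ez, Pi.single_apply]
  by_cases h : u = v
  · rw [if_pos h, if_pos h.symm, Int.cast_one]
  · rw [if_neg h, if_neg (Ne.symm h), Int.cast_zero]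

theorem posz (w : RG adj) (v : V) (h : (rcs adj).length w < (rcs adj).length (w * rs adj v))
    (u : V) : 0 ≤ rz adj w (ez v) u := by
  obtain ⟨G⟩ := cd_geom V (RG adj) (cmat adj) (rcs adj)
  obtain ⟨β, h1, h2⟩ := cd_posr V (RG adj) (cmat adj) (rcs adj) G w v h
  rw [← rc_ez, geo_rz] at h2
  have h3 : rc (rz adj w (ez v)) = β := congrArg Prod.fst h2
  have h4 := h1 u
  rw [← h3, rc_apply] at h4
  exact_mod_cast h4

theorem rfz_ez_self (v : V) : rfz adj v (ez v) = - ez v := by
  funext w
  rw [rfz_apply]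
  have h1 : ∑ u, bz adj u v * ez v u = 2 := by
    rw [Finset.sum_eq_single v]
    · rw [bz_self, ez, Pi.single_eq_same, mul_one]
    · intro u _ hu
      rw [ez, Pi.single_eq_of_ne hu, mul_zero]
    · intro h
      exact absurd (Finset.mem_univ v) h
  rw [h1, Pi.neg_apply]
  by_cases h : w = v
  · subst h
    rw [if_pos rfl, ez, Pi.single_eq_same]
    ring
  · rw [if_neg h, ez, Pi.single_eq_of_ne h]
    ring

theorem rfz_ez (v u : V) : rfz adj v (ez u) = ez u - bz adj u v • ez v := by
  funext w
  rw [rfz_apply]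
  have h1 : ∑ x, bz adj x v * ez u x = bz adj u v := by
    rw [Finset.sum_eq_single u]
    · rw [ez, Pi.single_eq_same, mul_one]
    · intro x _ hx
      rw [ez, Pi.single_eq_of_ne hx, mul_zero]
    · intro h
      exact absurd (Finset.mem_univ u) h
  rw [h1, Pi.sub_apply, Pi.smul_apply, smul_eq_mul]
  congr 1
  by_cases h : w = v
  · subst h
    rw [if_pos rfl, ez, Pi.single_eq_same, mul_one]
  · rw [if_neg h, ez, Pi.single_eq_of_ne h, mul_zero]

theorem negz (w : RG adj) (v : V) (h : (rcs adj).length (w * rs adj v) < (rcs adj).length w)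
    (u : V) : rz adj w (ez v) u ≤ 0 := by
  have h1 := posz adj (w * rs adj v) v (by rwa [mul_assoc, rs_sq, mul_one]) u
  rw [map_mul, rz_rs, Module.End.mul_apply, rfz_ez_self, map_neg, Pi.neg_apply] at h1
  linarith

theorem rz_inj (w : RG adj) (h : rz adj w = 1) : w = 1 := by
  by_contra hw
  obtain ⟨v, hv⟩ := (rcs adj).exists_rightDescent_of_ne_one hw
  have h1 := negz adj w v hv v
  rw [h, Module.End.one_apply, ez, Pi.single_eq_same] at h1
  exact absurd h1 (by norm_num)

theorem rz_ne (w : RG adj) (v : V) : rz adj w (ez v) ≠ 0 := by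
  intro h
  have h1 : rz adj w⁻¹ (rz adj w (ez v)) = ez v := by
    rw [← Module.End.mul_apply, ← map_mul, inv_mul_cancel, map_one, Module.End.one_apply]
  rw [h, map_zero] at h1
  have h2 := congrFun h1 v
  rw [ez, Pi.single_eq_same] at h2
  exact absurd h2 (by norm_num)

/-- descents and the representation -/
theorem desc_iff (w : RG adj) (v : V) : (rcs adj).length (w * rs adj v) < (rcs adj).length w ↔
    ∀ u, rz adj w (ez v) u ≤ 0 := by
  refine ⟨negz adj w v, fun h => ?_⟩
  by_contra h1
  have h2 : (rcs adj).length w < (rcs adj).length (w * rs adj v) :=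
    lt_of_le_of_ne (not_lt.1 h1) (Ne.symm ((rcs adj).length_mul_simple_ne w v))
  refine rz_ne adj w v (funext fun u => le_antisymm (h u) ?_)
  exact posz adj w v h2 u

/-- two descents are adjacent -/
theorem desc_adj_aux (u v : V) (huv : u ≠ v) (ha : ¬ (adj u v ∨ adj v u)) : ∀ (n : ℕ) (w : RG adj),
    (rcs adj).length w = n →
    ((∀ x, rz adj w (ez u) x ≤ 0) ∧ ∀ x, rz adj w (ez u) x + rz adj w (ez v) x ≤ 0) ∨
    ((∀ x, rz adj w (ez v) x ≤ 0) ∧ ∀ x, rz adj w (ez u) x + rz adj w (ez v) x ≤ 0) → False := by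
  intro n
  induction n using Nat.strong_induction_on with
  | _ n ih =>
    rintro w hw (⟨h1, h2⟩ | ⟨h1, h2⟩)
    · have hd := (desc_iff adj w u).2 h1
      refine ih _ (hw ▸ hd) (w * rs adj u) rfl (Or.inr ⟨fun x => ?_, fun x => ?_⟩)
      · rw [map_mul, rz_rs, Module.End.mul_apply, rfz_ez, bz_nadj adj (Ne.symm huv)
          (fun h => ha h.symm), map_sub, map_smul, Pi.sub_apply, Pi.smul_apply, smul_eq_mul]
        linarith [h1 x, h2 x]
      · rw [map_mul, rz_rs, Module.End.mul_apply, Module.End.mul_apply, rfz_ez_self, rfz_ez,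
          bz_nadj adj (Ne.symm huv) (fun h => ha h.symm), map_sub, map_smul, map_neg,
          Pi.sub_apply, Pi.smul_apply, Pi.neg_apply, smul_eq_mul]
        linarith [h1 x, h2 x]
    · have hd := (desc_iff adj w v).2 h1
      refine ih _ (hw ▸ hd) (w * rs adj v) rfl (Or.inl ⟨fun x => ?_, fun x => ?_⟩)
      · rw [map_mul, rz_rs, Module.End.mul_apply, rfz_ez, bz_nadj adj huv ha, map_sub, map_smul,
          Pi.sub_apply, Pi.smul_apply, smul_eq_mul]
        linarith [h1 x, h2 x]
      · rw [map_mul, rz_rs, Module.End.mul_apply, Module.End.mul_apply, rfz_ez_self, rfz_ez,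
          bz_nadj adj huv ha, map_sub, map_smul, map_neg,
          Pi.sub_apply, Pi.smul_apply, Pi.neg_apply, smul_eq_mul]
        linarith [h1 x, h2 x]

theorem desc_adj (w : RG adj) (u v : V)
    (h1 : (rcs adj).length (w * rs adj u) < (rcs adj).length w)
    (h2 : (rcs adj).length (w * rs adj v) < (rcs adj).length w) (huv : u ≠ v) :
    adj u v ∨ adj v u := by
  by_contra ha
  refine desc_adj_aux adj u v huv ha _ w rfl (Or.inl ⟨(desc_iff adj w u).1 h1, fun x => ?_⟩)
  linarith [(desc_iff adj w u).1 h1 x, (desc_iff adj w v).1 h2 x]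

/-- the signs of the right-angled Coxeter group -/
theorem exists_chi : ∃ χ : RG adj →* (V → ℤˣ), ∀ v, χ (rs adj v) = Pi.mulSingle v (-1) :=
  exists_lift adj (fun v => Pi.mulSingle v (-1)) (fun v => by
    rw [← Pi.mulSingle_mul, neg_mul_neg, one_mul, Pi.mulSingle_one]) (fun u v _ _ => mul_comm _ _)

def rchi : RG adj →* (V → ℤˣ) := (exists_chi adj).choose

theorem rchi_rs (v : V) : rchi adj (rs adj v) = Pi.mulSingle v (-1) := (exists_chi adj).choose_spec v

/-- `RG adj` is the right-angled Coxeter group in the sense of `RA` -/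
def raCox (hs : ∀ u v, adj u v → adj v u) (hi : ∀ v, ¬ adj v v) : RA V adj (RG adj) where
  s := rs adj
  len := (rcs adj).length
  χ := rchi adj
  χ_s := rchi_rs adj
  s_sq := rs_sq adj
  s_comm := fun u v h => rs_comm adj (fun e => hi v (e ▸ h)) h
  gen := (rcs adj).subgroup_closure_range_simple
  len_one := fun w => (rcs adj).length_eq_zero_iff
  ne := fun w hw => (rcs adj).exists_rightDescent_of_ne_one hw
  len_s := fun w v => (rcs adj).length_mul_simple w v
  desc := fun w u v h1 h2 huv => (desc_adj adj w u v h1 h2 huv).elim id (hs v u)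
  desc_s := fun w u v h => by
    have huv : u ≠ v := fun e => hi v (e ▸ h)
    rw [desc_iff, desc_iff, map_mul, rz_rs]
    have h1 : (rz adj w * rfz adj v) (ez u) = rz adj w (ez u) := by
      rw [Module.End.mul_apply, rfz_ez, bz_adj adj huv (Or.inl h), zero_smul, sub_zero]
    rw [h1]

/-! ### the residual chain -/

/-- the representation modulo `m` -/
def rzm (m : ℕ) : RG adj →* Matrix V V (ZMod m) :=
  (((Int.castRingHom (ZMod m)).mapMatrix : Matrix V V ℤ →+* Matrix V V (ZMod m)).toMonoidHom).comp
    ((LinearMap.toMatrixAlgEquiv' : Module.End ℤ (V → ℤ) ≃ₐ[ℤ] Matrix V V ℤ).toMonoidHom.comp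
      (rz adj))

theorem rzm_apply (m : ℕ) (w : RG adj) (u v : V) :
    rzm adj m w u v = ((rz adj w (ez v) u : ℤ) : ZMod m) := by
  show ((LinearMap.toMatrixAlgEquiv' (rz adj w) u v : ℤ) : ZMod m) = _
  rw [LinearMap.toMatrixAlgEquiv'_apply]

/-- the congruence subgroups -/
def cong (m : ℕ) : Subgroup (RG adj) := (rzm adj m).toHomUnits.ker

theorem mem_cong (m : ℕ) (w : RG adj) : w ∈ cong adj m ↔
    ∀ u v, ((rz adj w (ez v) u : ℤ) : ZMod m) = if u = v then 1 else 0 := by
  unfold cong
  rw [MonoidHom.mem_ker, Units.ext_iff, MonoidHom.coe_toHomUnits, Units.val_one]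
  constructor
  · intro h u v
    rw [← rzm_apply, h, Matrix.one_apply]
  · intro h
    ext u v
    rw [rzm_apply, h, Matrix.one_apply]

instance (m : ℕ) : (cong adj m).Normal := by unfold cong; infer_instance

instance (m : ℕ) [NeZero m] : (cong adj m).FiniteIndex := by
  unfold cong
  have : Finite (Matrix V V (ZMod m)) := inferInstanceAs (Finite (V → V → ZMod m))
  infer_instance

theorem cong_anti {m m' : ℕ} (h : m ∣ m') : cong adj m' ≤ cong adj m := by
  intro w hw
  rw [mem_cong] at hw ⊢
  intro u v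
  have h1 := congrArg (ZMod.castHom h (ZMod m)) (hw u v)
  rw [map_intCast] at h1
  rw [h1]
  split_ifs
  · exact map_one _
  · exact map_zero _

theorem cong_inf : ⨅ i : ℕ, cong adj (2 ^ (i + 2)) = ⊥ := by
  rw [eq_bot_iff]
  intro w hw
  rw [Subgroup.mem_iInf] at hw
  rw [Subgroup.mem_bot]
  apply rz_inj
  -- all entries agree with the entries of the identity
  have h1 : ∀ u v, rz adj w (ez v) u = if u = v then 1 else 0 := by
    intro u v
    have h2 : ∀ i : ℕ, ((2 ^ (i + 2) : ℕ) : ℤ) ∣ rz adj w (ez v) u - if u = v then 1 else 0 := by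
      intro i
      have h3 := (mem_cong adj _ w).1 (hw i) u v
      rw [← ZMod.intCast_zmod_eq_zero_iff_dvd, Int.cast_sub, h3]
      split_ifs <;> simp
    have h3 := h2 (rz adj w (ez v) u - if u = v then 1 else 0).natAbs
    by_contra hne
    have h4 : rz adj w (ez v) u - (if u = v then 1 else 0) ≠ 0 := sub_ne_zero.2 hne
    have h5 := Int.natAbs_dvd_natAbs.2 h3
    have h6 := Nat.le_of_dvd (Int.natAbs_pos.2 h4) h5
    rw [Int.natAbs_natCast] at h6
    have h7 : (rz adj w (ez v) u - if u = v then 1 else 0).natAbs <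
        2 ^ ((rz adj w (ez v) u - if u = v then 1 else 0).natAbs + 2) :=
      lt_of_lt_of_le (Nat.lt_two_pow_self) (Nat.pow_le_pow_right (by norm_num) (by omega))
    omega
  apply LinearMap.toMatrixAlgEquiv'.injective
  ext u v
  rw [LinearMap.toMatrixAlgEquiv'_apply, map_one, Matrix.one_apply]
  exact h1 u v

/-- the residual chain of congruence subgroups -/
def rchain : WChain (RG adj) where
  N i := cong adj (2 ^ (i + 2))
  normal i := inferInstance
  fin i := inferInstance
  anti := by
    intro i j hij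
    exact cong_anti adj (pow_dvd_pow 2 (by omega))
  inf := cong_inf adj

/-- the diagonal entries modulo 4 give the signs -/
theorem rz_diag (w : RG adj) : ∀ v : V, ∃ z : ℤ,
    rz adj w (ez v) v = ((rchi adj w v : ℤˣ) : ℤ) + 4 * z ∧ ∀ u, u ≠ v →
      ∃ z : ℤ, rz adj w (ez v) u = 2 * z := by
  intro v
  refine (rcs adj).simple_induction_left (p := fun w => ∃ z : ℤ,
    rz adj w (ez v) v = ((rchi adj w v : ℤˣ) : ℤ) + 4 * z ∧ ∀ u, u ≠ v →
      ∃ z : ℤ, rz adj w (ez v) u = 2 * z) w ?_ ?_
  · refine ⟨0, ?_, fun u hu => ⟨0, ?_⟩⟩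
    · rw [map_one, map_one, Module.End.one_apply, ez, Pi.single_eq_same]
      rfl
    · rw [map_one, Module.End.one_apply, ez, Pi.single_eq_of_ne hu]
      rfl
  · rintro w x ⟨z, h1, h2⟩
    have hb : ∀ u, ∃ b, bz adj u x = 2 * b := by
      intro u
      unfold bz
      split_ifs
      · exact ⟨1, rfl⟩
      · exact ⟨0, rfl⟩
      · exact ⟨-1, rfl⟩
    choose b hb using hb
    choose! c hc using h2
    by_cases hxv : x = v
    · subst hxv
      have h3 : ∑ u, bz adj u x * rz adj w (ez x) u = 2 * rz adj w (ez x) x +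
          4 * ∑ u ∈ Finset.univ.erase x, b u * c u := by
        rw [← Finset.add_sum_erase _ _ (Finset.mem_univ x), bz_self]
        congr 1
        rw [Finset.mul_sum]
        refine Finset.sum_congr rfl fun u hu => ?_
        rw [hb, hc u (Finset.ne_of_mem_erase hu)]
        ring
      refine ⟨- z - ∑ u ∈ Finset.univ.erase x, b u * c u, ?_, fun u hu => ⟨c u, ?_⟩⟩
      · rw [map_mul, map_mul, rz_rs, Module.End.mul_apply, rfz_apply, if_pos rfl, h3, rchi_rs,
          Pi.mul_apply, Pi.mulSingle_eq_same, h1]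
        push_cast
        ring
      · rw [map_mul, rz_rs, Module.End.mul_apply, rfz_apply, if_neg hu, sub_zero, hc u hu]
    · refine ⟨z, ?_, fun u hu => ?_⟩
      · rw [map_mul, map_mul, rz_rs, Module.End.mul_apply, rfz_apply, if_neg (Ne.symm hxv),
          sub_zero, rchi_rs, Pi.mul_apply, Pi.mulSingle_eq_of_ne (Ne.symm hxv), one_mul, h1]
      · rw [map_mul, rz_rs, Module.End.mul_apply, rfz_apply]
        have h3 : ∑ u, bz adj u x * rz adj w (ez v) u = 2 * ∑ u, b u * rz adj w (ez v) u := by
          rw [Finset.mul_sum]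
          exact Finset.sum_congr rfl fun u _ => by rw [hb]; ring
        rw [h3, hc u hu]
        by_cases h4 : u = x
        · rw [if_pos h4]
          exact ⟨_, (mul_sub _ _ _).symm⟩
        · rw [if_neg h4, sub_zero]
          exact ⟨_, rfl⟩

theorem rchain_le (i : ℕ) : (rchain adj).N i ≤ (rchi adj).ker := by
  intro w hw
  have h1 : w ∈ cong adj (2 ^ 2) := cong_anti adj (pow_dvd_pow 2 (by omega)) hw
  rw [mem_cong] at h1
  rw [MonoidHom.mem_ker]
  funext v
  obtain ⟨z, hz, -⟩ := rz_diag adj w v
  have h2 := h1 v v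
  rw [if_pos rfl, hz] at h2
  rcases Int.units_eq_one_or (rchi adj w v) with h3 | h3
  · exact h3
  · exfalso
    rw [h3] at h2
    have h4 : (((-1 + 4 * z : ℤ)) : ZMod 4) = 1 := by
      have : ((2 ^ 2 : ℕ)) = 4 := by norm_num
      rw [Units.val_neg, Units.val_one] at h2
      exact_mod_cast h2
    have h5 : ((4 : ℤ)) ∣ (-1 + 4 * z) - 1 := by
      have := (ZMod.intCast_eq_intCast_iff_dvd_sub (1 : ℤ) (-1 + 4 * z) 4).1 (by
        rw [h4]; norm_num)
      exact_mod_cast this
    omega

/-! ### infinite order -/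

theorem rz_dih (u v : V) (huv : u ≠ v) (ha : ¬ (adj u v ∨ adj v u)) (k : ℕ) :
    rz adj ((rs adj u * rs adj v) ^ k) (ez u) =
      ((2 * k + 1 : ℤ)) • ez u + ((2 * k : ℤ)) • ez v := by
  induction k with
  | zero =>
    rw [pow_zero, map_one, Module.End.one_apply]
    simp
  | succ k ih =>
    rw [pow_succ', map_mul, Module.End.mul_apply, ih, map_add, map_smul, map_smul, map_mul,
      Module.End.mul_apply, Module.End.mul_apply, rz_rs, rz_rs, rfz_ez_self, rfz_ez, map_neg,
      map_sub, map_smul, rfz_ez_self, rfz_ez, bz_nadj adj huv ha,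
      bz_nadj adj (Ne.symm huv) (fun h => ha h.symm)]
    push_cast
    module

theorem dih_ne_one (u v : V) (huv : u ≠ v) (ha : ¬ (adj u v ∨ adj v u)) (k : ℕ) (hk : k ≠ 0) :
    (rs adj u * rs adj v) ^ k ≠ 1 := by
  intro h
  have h1 := rz_dih adj u v huv ha k
  rw [h, map_one, Module.End.one_apply] at h1
  have h2 := congrFun h1 v
  simp only [Pi.add_apply, Pi.smul_apply, smul_eq_mul, ez, Pi.single_eq_same,
    Pi.single_eq_of_ne (Ne.symm huv)] at h2
  omega

theorem rinf (u v : V) (huv : u ≠ v) (ha : ¬ (adj u v ∨ adj v u)) :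
    Infinite (rchi adj).ker := by
  have hk : ∀ k : ℕ, (rs adj u * rs adj v) ^ (2 * k) ∈ (rchi adj).ker := by
    intro k
    rw [MonoidHom.mem_ker, map_pow, pow_mul]
    have : rchi adj (rs adj u * rs adj v) ^ 2 = 1 := by
      funext x
      rw [Pi.pow_apply, Pi.one_apply, sq, Int.units_mul_self]
    rw [this, one_pow]
  refine Infinite.of_injective (fun k : ℕ => (⟨_, hk k⟩ : (rchi adj).ker)) ?_
  have key : ∀ a b : ℕ, a < b → (rs adj u * rs adj v) ^ (2 * a) ≠ (rs adj u * rs adj v) ^ (2 * b) := by
    intro a b hab h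
    have h1 : 2 * b = 2 * a + (2 * b - 2 * a) := by omega
    rw [h1, pow_add] at h
    have h2 := mul_eq_left.1 h.symm
    exact dih_ne_one adj u v huv ha _ (by omega) h2
  intro a b hab
  have hab' : (rs adj u * rs adj v) ^ (2 * a) = (rs adj u * rs adj v) ^ (2 * b) :=
    congrArg Subtype.val hab
  rcases lt_trichotomy a b with h | h | h
  · exact absurd hab' (key a b h)
  · exact h
  · exact absurd hab'.symm (key b a h)

end rep

/-! ### induced subgraphs -/

theorem exists_incl {V' : Type} (adj : V → V → Prop) (adj' : V' → V' → Prop) (j : V' → V)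
    (hj : Function.Injective j) (h : ∀ a b, adj' a b ↔ adj (j a) (j b)) :
    ∃ (ι : RG adj' →* RG adj) (r : RG adj →* RG adj'), (∀ a, ι (rs adj' a) = rs adj (j a)) ∧
      (∀ a, r (rs adj (j a)) = rs adj' a) ∧ (∀ v, v ∉ Set.range j → r (rs adj v) = 1) ∧
      (∀ w, r (ι w) = w) ∧ ι.range = Subgroup.closure (rs adj '' Set.range j) := by
  classical
  obtain ⟨ι, hι⟩ := exists_lift adj' (fun a => rs adj (j a)) (fun a => rs_sq adj _)
    (fun a b hab hh => by
      rcases hh with hh | hh
      · exact rs_comm adj (fun e => hab (hj e)) ((h a b).1 hh)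
      · exact (rs_comm adj (fun e => hab (hj e).symm) ((h b a).1 hh)).symm)
  obtain ⟨r, hr⟩ := exists_lift adj (fun v => if hv : ∃ a, j a = v then rs adj' hv.choose else 1)
    (fun v => by
      by_cases hv : ∃ a, j a = v
      · simp only [dif_pos hv]
        exact rs_sq adj' _
      · simp only [dif_neg hv, mul_one])
    (fun u v huv hh => by
      by_cases hu : ∃ a, j a = u
      · by_cases hv : ∃ a, j a = v
        · simp only [dif_pos hu, dif_pos hv]
          have e1 := hu.choose_spec
          have e2 := hv.choose_spec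
          have hne : hu.choose ≠ hv.choose := fun e => huv (by rw [← e1, ← e2, e])
          rcases hh with hh | hh
          · exact rs_comm adj' hne ((h _ _).2 (by rw [e1, e2]; exact hh))
          · exact (rs_comm adj' (Ne.symm hne) ((h _ _).2 (by rw [e1, e2]; exact hh))).symm
        · simp only [dif_neg hv, mul_one, one_mul]
      · simp only [dif_neg hu, mul_one, one_mul])
  have h1 : ∀ a, r (rs adj (j a)) = rs adj' a := by
    intro a
    rw [hr]
    have hv : ∃ b, j b = j a := ⟨a, rfl⟩
    rw [dif_pos hv, hj hv.choose_spec]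
  refine ⟨ι, r, hι, h1, ?_, ?_, ?_⟩
  · intro v hv
    rw [hr, dif_neg]
    rintro ⟨a, ha⟩
    exact hv ⟨a, ha⟩
  · intro w
    have : r.comp ι = MonoidHom.id _ := by
      refine (rcs adj').ext_simple fun a => ?_
      rw [MonoidHom.comp_apply]
      exact (congrArg r (hι a)).trans (h1 a)
    exact DFunLike.congr_fun this w
  · rw [MonoidHom.range_eq_map, ← (rcs adj').subgroup_closure_range_simple,
      MonoidHom.map_closure]
    congr 1
    ext w
    constructor
    · rintro ⟨_, ⟨a, rfl⟩, rfl⟩
      exact ⟨j a, ⟨a, rfl⟩, (hι a).symm⟩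
    · rintro ⟨_, ⟨a, rfl⟩, rfl⟩
      exact ⟨_, ⟨a, rfl⟩, hι a⟩

end Pool.LU
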