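import Pool.Agent.H3.L2.Assembly

/-!
Project LU, top level: under Q1, one `L2`-acyclic manifold with torsion growth in the middle degree
gives the vanishing of the growth of mod `p` homology for all closed aspherical manifolds of odd
dimension (with Poincare duality), so that one manifold with growth refutes Q1.
-/

set_option autoImplicit false

open scoped BigOperators Topology
open MeasureTheory Filter Pool.H3.L2 Pool.H29.L2

noncomputable section

namespace Pool.LU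

/-- Part Y: a closed aspherical manifold of odd dimension `2k+1` with a residual chain along which
all real Betti numbers are `o(index)` and the torsion of the middle degree grows exponentially. -/
structure PartY : Type 1 where
  k : ℕ
  Y : AsphericalMfd (2 * k + 1)
  C : BCx (GR Y.Γ)
  c : ResChain Y.Γ
  res : C.IsRes
  acyc : ∀ j, Tendsto (fun i => ((C.cover (c.N i)).betti ℝ j : ℝ) / ((c.N i).index : ℝ))
    atTop (𝓝 0)
  ε : ℝ
  pos : 0 < ε
  tors : ∃ᶠ i in atTop, ε * ((c.N i).index : ℝ) ≤ Real.log ((C.cover (c.N i)).torsOrd k)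

theorem PartY.rho_ne (Y : PartY) (hQ : Q1) {μ : ℕ → Measure ℝ}
    (h : (⟨Y.C, Y.c, Y.res⟩ : Dat Y.Y).Good μ) : Y.C.rho μ ≠ 0 := by
  intro h0
  have h1 := (⟨Y.C, Y.c, Y.res⟩ : Dat Y.Y).q1 ((Q1_iff.1 hQ) Y.k Y.Y) h
  have h2 : ((-1 : ℝ) ^ Y.k * (⟨Y.C, Y.c, Y.res⟩ : Dat Y.Y).C.rho μ) = 0 := by
    have : (⟨Y.C, Y.c, Y.res⟩ : Dat Y.Y).C.rho μ = 0 := h0
    rw [this, mul_zero]
  rw [h2] at h1
  have h3 : ∀ᶠ i in atTop, Real.log ((Y.C.cover (Y.c.N i)).torsOrd Y.k) /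
      ((Y.c.N i).index : ℝ) < Y.ε := h1.eventually (gt_mem_nhds Y.pos)
  obtain ⟨i, hi, hi'⟩ := (Y.tors.and_eventually h3).exists
  have hx : (0 : ℝ) < ((Y.c.N i).index : ℝ) := by
    exact_mod_cast (⟨Y.C, Y.c, Y.res⟩ : Dat Y.Y).idx_pos i
  rw [div_lt_iff₀ hx] at hi'
  exact absurd hi (not_le.mpr hi')

/-- Q1 and part Y give the mod `p` Singer conjecture in odd dimensions. -/
theorem fpSinger (hQ : Q1) (Y : PartY) {m : ℕ} (X : AsphericalMfd (2 * m + 1))
    (C : BCx (GR X.Γ)) (hC : C.IsRes) (c : ResChain X.Γ) (hR : DualBetti ℝ C c (2 * m + 1))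
    (p : ℕ) [Fact p.Prime] (hp : DualBetti (ZMod p) C c (2 * m + 1)) (j : ℕ) :
    Tendsto (fun i => ((C.cover (c.N i)).betti (ZMod p) j : ℝ) / ((c.N i).index : ℝ))
      atTop (𝓝 0) := by
  choose μ hμ using fun l => exists_spectral Y.C Y.c l
  have hg : (⟨Y.C, Y.c, Y.res⟩ : Dat Y.Y).Good μ :=
    ⟨hμ, fun l => (luck (hμ l) (Y.acyc l)).1⟩
  have hρ := Y.rho_ne hQ hg
  have hQ' := Q1_iff.1 hQ
  have hZ : Q1At (X.prod (X.prod Y.Y rfl) rfl) (2 * m + 1 + Y.k) := by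
    have h1 : ∀ (n : ℕ) (M : AsphericalMfd n), n = 2 * (2 * m + 1 + Y.k) + 1 →
        Q1At M (2 * m + 1 + Y.k) := by
      rintro n M rfl
      exact hQ' _ M
    exact h1 _ _ (by ring)
  have hP : Q1At (X.pow (2 * m + 2)) ((2 * m + 3) * m + (m + 1)) := by
    have h1 : ∀ (n : ℕ) (M : AsphericalMfd n), n = 2 * ((2 * m + 3) * m + (m + 1)) + 1 →
        Q1At M ((2 * m + 3) * m + (m + 1)) := by
      rintro n M rfl
      exact hQ' _ M
    exact h1 _ _ (by ring)
  exact Dat.modp_growth' (⟨Y.C, Y.c, Y.res⟩ : Dat Y.Y) (hQ' _ _) hg hρ (⟨C, c, hC⟩ : Dat X) rfl rfl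
    hZ hP hR p hp j

end Pool.LU
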